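import Pool.Agent.Lib.H44S.SDefs

/-!
# Chunk A1 (M): closable graphs and sums of perfect matchings under a renaming

* `closable_equiv`: induction on `Closable H`. `top`: `(⊤ : SimpleGraph W).comap f = ⊤`.
  `step H a b`: with `a' = f.symm a`, `b' = f.symm b`: `nb (H.comap f) a' = nb H a` (the neighbour sets
  correspond under `f`), and `addG (H.comap f) a' b' = (addG H a b).comap f`.
* `dec_comap`: as `cov_comap` in `H44O/H5` (coefficients `fun τ => a (f.permCongr τ)`).
-/

namespace Pool.Agent.H44S

open Finset Pool.Agent.H44O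
open scoped Classical

variable {V W : Type*} [Fintype V] [Fintype W]

theorem a1_nb_comap (f : V ≃ W) (H : SimpleGraph W) (a : W) :
    nb (H.comap f) (f.symm a) = nb H a := by
  unfold nb
  rw [← card_map f.toEmbedding]
  congr 1
  ext w
  simp only [mem_map, mem_filter, mem_univ, true_and, SimpleGraph.comap_adj,
    Equiv.apply_symm_apply, Equiv.coe_toEmbedding]
  constructor
  · rintro ⟨v, hv, rfl⟩
    exact hv
  · intro hw
    exact ⟨f.symm w, by rwa [Equiv.apply_symm_apply], by rw [Equiv.apply_symm_apply]⟩

theorem closable_equiv (f : V ≃ W) {H : SimpleGraph W} (h : Closable H) :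
    Closable (H.comap f) := by
  induction h with
  | top =>
    have h1 : (⊤ : SimpleGraph W).comap f = ⊤ := by
      ext u v
      simp [SimpleGraph.comap_adj, SimpleGraph.top_adj]
    rw [h1]
    exact Closable.top
  | step H a b hab hna hd hc ih =>
    refine Closable.step _ (f.symm a) (f.symm b) ?_ ?_ ?_ ?_
    · intro h1
      exact hab (f.symm.injective h1)
    · rw [SimpleGraph.comap_adj, Equiv.apply_symm_apply, Equiv.apply_symm_apply]
      exact hna
    · rw [a1_nb_comap, a1_nb_comap, Fintype.card_congr f]
      exact hd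
    · have h1 : addG (H.comap f) (f.symm a) (f.symm b) = (addG H a b).comap f := by
        ext u v
        show (H.Adj (f u) (f v) ∨ (u ≠ v ∧ ((u = f.symm a ∧ v = f.symm b) ∨
          (u = f.symm b ∧ v = f.symm a)))) ↔ (H.Adj (f u) (f v) ∨ (f u ≠ f v ∧
          ((f u = a ∧ f v = b) ∨ (f u = b ∧ f v = a))))
        rw [Equiv.eq_symm_apply, Equiv.eq_symm_apply, Equiv.eq_symm_apply, Equiv.eq_symm_apply,
          f.injective.ne_iff]
      rw [h1]
      exact ih

theorem dec_comap (f : V ≃ W) {x : W → W → ℤ} (h : Dec x) : Dec (fun u v => x (f u) (f v)) := by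
  obtain ⟨a, h2, h3⟩ := h
  refine ⟨fun τ => a (f.permCongr τ), ?_, ?_⟩
  · intro τ hτ
    obtain ⟨h4, h5⟩ := h2 _ hτ
    constructor
    · intro v
      have h6 := h4 (f v)
      simp only [Equiv.permCongr_apply, Equiv.symm_apply_apply] at h6
      exact f.injective h6
    · intro v hv
      apply h5 (f v)
      simp only [Equiv.permCongr_apply, Equiv.symm_apply_apply, hv]
  · intro u v
    show x (f u) (f v) = _
    rw [h3 (f u) (f v), ← Equiv.sum_comp f.permCongr (fun σ => (a σ : ℤ) * chi σ (f u) (f v))]
    refine sum_congr rfl fun τ _ => ?_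
    congr 1
    unfold chi
    simp only [Equiv.permCongr_apply, Equiv.symm_apply_apply, EmbeddingLike.apply_eq_iff_eq,
      ne_eq]

end Pool.Agent.H44S
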