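import Pool.Agent.Lib.H44S.A1
import Pool.Agent.Lib.H44O.G2

/-!
# Chunk A2 (M): the decomposition theorem with one constant for all types with at most `n` elements

For every `m ≤ n` take `L m` from `decomposition` for `Fin m` if `m` is even, and `L m = 1` otherwise;
`L := ∑ m ∈ range (n + 1), L m` (at least every `L m`). Let `V`, `x`, `r` be as in the statement,
`m = card V`, `f : Fin m ≃ V`, `y i j = x (f i) (f j)`. `IsW y` (`isW_comap`), `dg_comap`; for `U` in
`Fin m`: `cutW y U = cutW x (U.map f)` (sums over a map, `(U.map f)ᶜ = Uᶜ.map f`), so at least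
`r + L ≥ r + L m`. `heavy y (L m) ≥ (heavy x L).comap f` is closable (`closable_equiv`,
`closable_mono`). So `Dec y`, and `x = y` renamed by `f.symm` (`dec_comap`).
-/

namespace Pool.Agent.H44S

open Finset Pool.Agent.H44O
open scoped Classical

theorem cutW_comap {V W : Type*} [Fintype V] [Fintype W] (f : V ≃ W) (x : W → W → ℤ) (U : Finset V) :
    cutW (fun u v => x (f u) (f v)) U = cutW x (U.map f.toEmbedding) := by
  unfold cutW
  rw [sum_map]
  refine sum_congr rfl fun u _ => ?_
  refine sum_equiv f ?_ ?_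
  · intro v
    rw [mem_compl, mem_compl]
    have h : f v = f.toEmbedding v := rfl
    rw [h, mem_map' f.toEmbedding]
  · intro v _
    rfl

theorem uniform_dec (n : ℕ) :
    ∃ L : ℕ, 1 ≤ L ∧ ∀ (V : Type) [Fintype V], Even (Fintype.card V) → Fintype.card V ≤ n →
      ∀ (x : V → V → ℤ) (r : ℤ), IsW x → (∀ u, dg x u = r) →
      (∀ U : Finset V, Odd U.card → 3 ≤ U.card → U.card + 3 ≤ Fintype.card V →
        r + L ≤ cutW x U) →
      Closable (heavy x L) → Dec x := by
  have hdec : ∀ m : ℕ, ∃ L : ℕ, 1 ≤ L ∧ (Even m → ∀ (x : Fin m → Fin m → ℤ) (r : ℤ), IsW x →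
      (∀ u, dg x u = r) →
      (∀ U : Finset (Fin m), Odd U.card → 3 ≤ U.card → U.card + 3 ≤ m → r + L ≤ cutW x U) →
      Closable (heavy x L) → Dec x) := by
    intro m
    by_cases hm : Even m
    · obtain ⟨L, hL1, hL⟩ := decomposition (V := Fin m) (by rwa [Fintype.card_fin])
      refine ⟨L, hL1, fun _ x r hx hr hcut hcl => hL x r hx hr ?_ hcl⟩
      intro U h1 h2 h3
      rw [Fintype.card_fin] at h3
      exact hcut U h1 h2 h3
    · exact ⟨1, le_rfl, fun h => absurd h hm⟩
  choose L hL1 hL using hdec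
  have hle : ∀ m, m ≤ n → L m ≤ ∑ k ∈ range (n + 1), L k := by
    intro m hm
    exact single_le_sum (f := L) (fun _ _ => Nat.zero_le _) (mem_range.2 (by omega))
  refine ⟨∑ k ∈ range (n + 1), L k, (hL1 0).trans (hle 0 (Nat.zero_le _)), ?_⟩
  intro V _ hV hn x r hx hr hcut hcl
  obtain ⟨m, hm⟩ : ∃ m, m = Fintype.card V := ⟨_, rfl⟩
  have f : Fin m ≃ V := (Fintype.equivFinOfCardEq hm.symm).symm
  rw [← hm] at hV hn
  have hle' : (L m : ℤ) ≤ (∑ k ∈ range (n + 1), L k : ℕ) := by
    exact_mod_cast hle m hn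
  have hy := hL m hV (fun i j => x (f i) (f j)) r (isW_comap f hx) (by
    intro u
    rw [dg_comap]
    exact hr _) (by
    intro U h1 h2 h3
    rw [cutW_comap]
    have h4 := hcut (U.map f.toEmbedding) (by rwa [card_map]) (by rwa [card_map])
      (by rw [card_map, ← hm]; exact h3)
    linarith) (by
    refine closable_mono ?_ (closable_equiv f hcl)
    intro u v huv
    rw [SimpleGraph.comap_adj] at huv
    obtain ⟨h1, h2, h3⟩ := huv
    exact ⟨fun h => h1 (by rw [h]), hle'.trans h2, hle'.trans h3⟩)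
  have hx' : x = fun u v => (fun i j => x (f i) (f j)) (f.symm u) (f.symm v) := by
    funext u v
    show x u v = x (f (f.symm u)) (f (f.symm v))
    rw [Equiv.apply_symm_apply, Equiv.apply_symm_apply]
  rw [hx']
  exact dec_comap f.symm hy

end Pool.Agent.H44S
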