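import Pool.Agent.Lib.H44S.SDefs

/-!
# Chunk B1 (M): the contracted weight

All from the definitions with `Fintype.sum_option` and sums over the subtype `{v // v ∉ S}`
(`Finset.sum_subtype` / `Finset.sum_coe_sort` for `Sᶜ`).
* `con_add`, `con_sub`: case split on the two arguments, `Finset.sum_add_distrib`.
* `dg_con_some`: `∑ w ∈ S, x w u + ∑ v ∉ S, x u v = dg x u` by symmetry of `x`.
* `dg_con_none`: `∑ v ∉ S, ∑ w ∈ S, x w v = cutW x S` (`Finset.sum_comm`).
* `card_con`: `Fintype.card_option`, `Fintype.card_subtype_compl` or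
  `Fintype.card {v // v ∉ S} = Sᶜ.card`.
-/

namespace Pool.Agent.H44S

open Finset Pool.Agent.H44O
open scoped Classical

variable {V : Type*}

theorem con_add (x y : V → V → ℤ) (S : Finset V) : con (x + y) S = con x S + con y S := by
  funext u v
  rcases u with _ | u <;> rcases v with _ | v <;>
    simp [con, Pi.add_apply, Finset.sum_add_distrib]

theorem con_sub (x y : V → V → ℤ) (S : Finset V) : con (x - y) S = con x S - con y S := by
  funext u v
  rcases u with _ | u <;> rcases v with _ | v <;>
    simp [con, Pi.sub_apply, Finset.sum_sub_distrib]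

theorem isW_con {x : V → V → ℤ} (hx : IsW x) (S : Finset V) : IsW (con x S) := by
  refine ⟨?_, ?_, ?_⟩
  · rintro (_ | u) (_ | v)
    · rfl
    · rfl
    · rfl
    · exact hx.symm _ _
  · rintro (_ | v)
    · rfl
    · exact hx.diag _
  · rintro (_ | u) (_ | v)
    · exact le_rfl
    · exact sum_nonneg fun w _ => hx.nonneg _ _
    · exact sum_nonneg fun w _ => hx.nonneg _ _
    · exact hx.nonneg _ _

variable [Fintype V]

theorem b1_sum (S : Finset V) (g : V → ℤ) : ∑ v : {v : V // v ∉ S}, g v = ∑ v ∈ Sᶜ, g v := by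
  symm
  apply sum_subtype
  intro v
  exact mem_compl

theorem dg_con_some {x : V → V → ℤ} (hx : IsW x) (S : Finset V) (u : {v : V // v ∉ S}) :
    dg (con x S) (some u) = dg x u := by
  unfold dg
  rw [Fintype.sum_option]
  show ∑ w ∈ S, x w u + ∑ v : {v : V // v ∉ S}, x u v = ∑ v, x u v
  rw [b1_sum S (fun v => x u v), ← sum_add_sum_compl S]
  congr 1
  exact sum_congr rfl fun w _ => hx.symm _ _

theorem dg_con_none (x : V → V → ℤ) (S : Finset V) : dg (con x S) none = cutW x S := by
  unfold dg cutW
  rw [Fintype.sum_option]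
  show 0 + ∑ v : {v : V // v ∉ S}, ∑ w ∈ S, x w v = _
  rw [b1_sum S (fun v => ∑ w ∈ S, x w v), zero_add, sum_comm]

theorem card_con (S : Finset V) :
    Fintype.card (Option {v : V // v ∉ S}) + S.card = Fintype.card V + 1 := by
  have h1 : Fintype.card {v : V // v ∉ S} = Sᶜ.card := by
    apply Fintype.card_of_subtype
    intro v
    exact mem_compl
  have h2 := card_add_card_compl S
  rw [Fintype.card_option, h1]
  omega

end Pool.Agent.H44S
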