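import Pool.Agent.Lib.H44S.B1

/-!
# Chunk B2 (M): cuts of the contracted weight

`Z` is the image of `U` (the `v` with `some v ∈ U`): `Z := univ.filter (fun v => ∃ h, some ⟨v, h⟩ ∈ U)`.
The cut of `con x S` at `U` is the sum over `v ∈ Z` of the entries to `none` (the sum over `w ∈ S`) and
to the `some u` with `u ∉ S`, `u ∉ Z`. Together: all `u ∉ Z` (`S` and `Z` are disjoint), using the
symmetry of `x`.
-/

namespace Pool.Agent.H44S

open Finset Pool.Agent.H44O
open scoped Classical

variable {V : Type*} [Fintype V]

theorem cut_con {x : V → V → ℤ} (hx : IsW x) {S : Finset V} {U : Finset (Option {v : V // v ∉ S})}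
    (hU : none ∉ U) :
    ∃ Z : Finset V, Z.card = U.card ∧ (∀ v ∈ Z, v ∉ S) ∧
      (∀ v : {v : V // v ∉ S}, v.1 ∈ Z ↔ some v ∈ U) ∧ cutW (con x S) U = cutW x Z := by
  have hE : (Finset.eraseNone U).map Function.Embedding.some = U := by
    rw [Finset.map_some_eraseNone, Finset.erase_eq_of_notMem hU]
  set E := Finset.eraseNone U with hEdef
  refine ⟨E.map (Function.Embedding.subtype _), ?_, ?_, ?_, ?_⟩
  · rw [Finset.card_map]
    conv_rhs => rw [← hE]
    rw [Finset.card_map]
  · intro v hv
    rw [Finset.mem_map] at hv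
    obtain ⟨w, _, rfl⟩ := hv
    exact w.2
  · intro v
    rw [Finset.mem_map]
    constructor
    · rintro ⟨w, hw, hwv⟩
      have : w = v := Subtype.ext hwv
      subst this
      exact Finset.mem_eraseNone.1 hw
    · intro h
      exact ⟨v, Finset.mem_eraseNone.2 h, rfl⟩
  · have h1 := sum_dg (con x S) U
    have h2 := sum_dg x (E.map (Function.Embedding.subtype _))
    have h3 : ∑ u ∈ U, dg (con x S) u = ∑ u ∈ E.map (Function.Embedding.subtype _), dg x u := by
      conv_lhs => rw [← hE]
      rw [Finset.sum_map, Finset.sum_map]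
      exact Finset.sum_congr rfl fun u _ => dg_con_some hx S u
    have h4 : inW (con x S) U = inW x (E.map (Function.Embedding.subtype _)) := by
      conv_lhs => rw [← hE]
      unfold inW
      rw [Finset.sum_map, Finset.sum_map]
      refine Finset.sum_congr rfl fun u _ => ?_
      rw [Finset.sum_map, Finset.sum_map]
      rfl
    linarith

end Pool.Agent.H44S
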