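import Pool.Agent.Lib.H44O.A2

/-!
# Chunk C1 (M): submodularity of cuts, and parity

* `cut_sub`: write all four cuts as sums over `univ × univ` of `x u v * [u ∈ U, v ∉ U]` (as `a2_inW` in
  `H44O/A2`) and compare termwise by cases (nonnegativity of `x u v` and symmetry are not needed
  for `cut_sub`: `[u ∈ U ∪ W, v ∉ U ∪ W] + [u ∈ U ∩ W, v ∉ U ∩ W] ≤ [u ∈ U, v ∉ U] + [u ∈ W, v ∉ W]` fails
  for a single ordered pair when `u ∈ U \ W`, `v ∈ W \ U` only in the good direction; check).
  Another way: `cutW x U = ∑ u ∈ U, dg x u - inW x U` (`sum_dg`), `Finset.sum_union_inter` and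
  `inW_union_inter`.
* `cut_posi`: the pairs `(p, u)` and `(u, p)` with `p ∈ U ∩ W`, `u ∉ U ∪ W` are counted twice on the right
  and not on the left. With `inW`: apply the inequality without the term `2 * x p u` to the weight
  `x' = x - (the edge pu counted x p u times)`, or do the termwise comparison:
  for every ordered pair, `[a ∈ U, b ∉ U] + [a ∈ W, b ∉ W] + (same for (b, a))` is at least the left
  indicator for `(a, b)` plus the one for `(b, a)`, plus `2` for `{a, b} = {p, u}`.
* `cut_parity`: `cutW = ∑ dg - inW`, the sum is `r * |U|` and `inW` is even (`even_inW`).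
-/

namespace Pool.Agent.H44S

open Finset Pool.Agent.H44O
open scoped Classical

variable {V : Type*} [Fintype V]

theorem c1_cut (x : V → V → ℤ) (U : Finset V) :
    cutW x U = ∑ a, ∑ b, if a ∈ U then (if b ∈ U then 0 else x a b) else 0 := by
  have h1 : cutW x U = ∑ u ∈ U, dg x u - inW x U := by rw [sum_dg]; ring
  rw [h1, a2_dg, a2_inW, ← Finset.sum_sub_distrib]
  refine Finset.sum_congr rfl fun a _ => ?_
  rw [← Finset.sum_sub_distrib]
  refine Finset.sum_congr rfl fun b _ => ?_
  by_cases h2 : a ∈ U <;> by_cases h3 : b ∈ U <;> simp [h2, h3]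

theorem c1_cut' {x : V → V → ℤ} (hx : IsW x) (U : Finset V) :
    cutW x U = ∑ a, ∑ b, if b ∈ U then (if a ∈ U then 0 else x a b) else 0 := by
  rw [c1_cut, Finset.sum_comm]
  refine Finset.sum_congr rfl fun a _ => Finset.sum_congr rfl fun b _ => ?_
  rw [hx.symm b a]

theorem cut_sub {x : V → V → ℤ} (hx : IsW x) (U W : Finset V) :
    cutW x (U ∪ W) + cutW x (U ∩ W) ≤ cutW x U + cutW x W := by
  rw [c1_cut, c1_cut, c1_cut, c1_cut, ← Finset.sum_add_distrib, ← Finset.sum_add_distrib]
  refine Finset.sum_le_sum fun u _ => ?_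
  rw [← Finset.sum_add_distrib, ← Finset.sum_add_distrib]
  refine Finset.sum_le_sum fun v _ => ?_
  have h0 := hx.nonneg u v
  by_cases h1 : u ∈ U <;> by_cases h2 : u ∈ W <;> by_cases h3 : v ∈ U <;> by_cases h4 : v ∈ W <;>
    simp [h1, h2, h3, h4, h0]

theorem cut_posi {x : V → V → ℤ} (hx : IsW x) {U W : Finset V} {p u : V} (h1 : p ∈ U) (h2 : p ∈ W)
    (h3 : u ∉ U) (h4 : u ∉ W) :
    cutW x (U \ W) + cutW x (W \ U) + 2 * x p u ≤ cutW x U + cutW x W := by
  have hs : ∀ c d : V, (∑ a, ∑ b, if a = c then (if b = d then x p u else 0) else 0) = x p u := by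
    intro c d
    rw [Finset.sum_eq_single c, Finset.sum_eq_single d]
    · simp
    · intro b _ hb; simp [hb]
    · intro h; exact absurd (Finset.mem_univ _) h
    · intro b _ hb; simp [hb]
    · intro h; exact absurd (Finset.mem_univ _) h
  have key : (∑ a, ∑ b, if a ∈ U \ W then (if b ∈ U \ W then 0 else x a b) else 0) +
      (∑ a, ∑ b, if b ∈ U \ W then (if a ∈ U \ W then 0 else x a b) else 0) +
      (∑ a, ∑ b, if a ∈ W \ U then (if b ∈ W \ U then 0 else x a b) else 0) +
      (∑ a, ∑ b, if b ∈ W \ U then (if a ∈ W \ U then 0 else x a b) else 0) +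
      2 * (∑ a, ∑ b, if a = p then (if b = u then x p u else 0) else 0) +
      2 * (∑ a, ∑ b, if a = u then (if b = p then x p u else 0) else 0) ≤
      (∑ a, ∑ b, if a ∈ U then (if b ∈ U then 0 else x a b) else 0) +
      (∑ a, ∑ b, if b ∈ U then (if a ∈ U then 0 else x a b) else 0) +
      (∑ a, ∑ b, if a ∈ W then (if b ∈ W then 0 else x a b) else 0) +
      (∑ a, ∑ b, if b ∈ W then (if a ∈ W then 0 else x a b) else 0) := by
    simp only [Finset.mul_sum, ← Finset.sum_add_distrib]
    refine Finset.sum_le_sum fun a _ => Finset.sum_le_sum fun b _ => ?_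
    have h0 := hx.nonneg a b
    have e1 : (if a = p then (if b = u then x p u else 0) else 0) ≤
        if a ∈ U ∧ a ∈ W ∧ b ∉ U ∧ b ∉ W then x a b else 0 := by
      by_cases ha : a = p
      · by_cases hb : b = u
        · subst ha; subst hb
          simp [h1, h2, h3, h4]
        · rw [if_pos ha, if_neg hb]
          split_ifs <;> simp [h0]
      · rw [if_neg ha]
        split_ifs <;> simp [h0]
    have e2 : (if a = u then (if b = p then x p u else 0) else 0) ≤
        if b ∈ U ∧ b ∈ W ∧ a ∉ U ∧ a ∉ W then x a b else 0 := by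
      by_cases ha : a = u
      · by_cases hb : b = p
        · subst ha; subst hb
          simp only [h1, h2, h3, h4, not_false_eq_true, and_self, if_true]
          exact le_of_eq (hx.symm _ _)
        · rw [if_pos ha, if_neg hb]
          split_ifs <;> simp [h0]
      · rw [if_neg ha]
        split_ifs <;> simp [h0]
    generalize (if a = p then (if b = u then x p u else 0) else 0) = E1 at *
    generalize (if a = u then (if b = p then x p u else 0) else 0) = E2 at *
    by_cases g1 : a ∈ U <;> by_cases g2 : a ∈ W <;> by_cases g3 : b ∈ U <;> by_cases g4 : b ∈ W <;>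
      simp [g1, g2, g3, g4] at e1 e2 ⊢ <;> linarith
  rw [hs, hs, ← c1_cut, ← c1_cut, ← c1_cut, ← c1_cut, ← c1_cut' hx, ← c1_cut' hx, ← c1_cut' hx,
    ← c1_cut' hx] at key
  linarith

theorem cut_parity {x : V → V → ℤ} (hx : IsW x) {r : ℤ} {U : Finset V} (hU : Odd U.card)
    (hr : ∀ a ∈ U, dg x a = r) : Even (cutW x U - r) := by
  have h1 := sum_dg x U
  rw [Finset.sum_congr rfl hr, Finset.sum_const, nsmul_eq_mul] at h1
  obtain ⟨k, hk⟩ := hU
  obtain ⟨m, hm⟩ := even_inW hx U
  refine ⟨r * k - m, ?_⟩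
  rw [hk] at h1
  push_cast at h1
  linear_combination -h1 - hm

end Pool.Agent.H44S
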