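import Pool.Agent.Lib.H44S.C1

/-!
# Chunk C2 (S/M): the union of two tight sets

`|Z1|`, `|Z2|` odd. If `|Z1 ∩ Z2|` is odd then `|Z1 ∪ Z2|` is odd (`Finset.card_union_add_card_inter`),
`u` is in neither, so both cuts are at least `r`, and `cut_sub` gives `cutW (Z1 ∪ Z2) ≤ r`.
If `|Z1 ∩ Z2|` is even then `Z1 \ Z2` and `Z2 \ Z1` are odd (`Finset.card_sdiff_add_card_inter`), their
cuts are at least `r` and `cut_posi` gives `2 r + 2 x p u ≤ 2 r`: contradiction.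
-/

namespace Pool.Agent.H44S

open Finset Pool.Agent.H44O
open scoped Classical

variable {V : Type*} [Fintype V]

theorem tight_union2 {x : V → V → ℤ} (hx : IsW x) {r : ℤ} {u p : V}
    (hcut : ∀ Z : Finset V, Odd Z.card → u ∉ Z → r ≤ cutW x Z) {Z1 Z2 : Finset V}
    (o1 : Odd Z1.card) (o2 : Odd Z2.card) (u1 : u ∉ Z1) (u2 : u ∉ Z2) (t1 : cutW x Z1 = r)
    (t2 : cutW x Z2 = r) (p1 : p ∈ Z1) (p2 : p ∈ Z2) (hp : 1 ≤ x u p) :
    Odd (Z1 ∪ Z2).card ∧ cutW x (Z1 ∪ Z2) = r := by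
  have hc := Finset.card_union_add_card_inter Z1 Z2
  have hu1 : u ∉ Z1 ∪ Z2 := by simp [u1, u2]
  have hu2 : u ∉ Z1 ∩ Z2 := by simp [u1]
  rcases Nat.even_or_odd (Z1 ∩ Z2).card with he | ho
  · exfalso
    have h1 := Finset.card_sdiff_add_card_inter Z1 Z2
    have h2 := Finset.card_sdiff_add_card_inter Z2 Z1
    rw [Finset.inter_comm Z2 Z1] at h2
    have o3 : Odd (Z1 \ Z2).card := by
      rcases o1 with ⟨a, ha⟩
      rcases he with ⟨b, hb⟩
      exact ⟨a - b, by omega⟩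
    have o4 : Odd (Z2 \ Z1).card := by
      rcases o2 with ⟨a, ha⟩
      rcases he with ⟨b, hb⟩
      exact ⟨a - b, by omega⟩
    have h3 := hcut _ o3 (by simp [u1])
    have h4 := hcut _ o4 (by simp [u2])
    have h5 := cut_posi hx p1 p2 u1 u2
    have h6 := hx.symm u p
    rw [t1, t2] at h5
    linarith
  · have o3 : Odd (Z1 ∪ Z2).card := by
      rcases o1 with ⟨a, ha⟩
      rcases o2 with ⟨b, hb⟩
      rcases ho with ⟨c, hc'⟩
      exact ⟨a + b - c, by omega⟩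
    refine ⟨o3, ?_⟩
    have h3 := hcut _ o3 hu1
    have h4 := hcut _ ho hu2
    have h5 := cut_sub hx Z1 Z2
    rw [t1, t2] at h5
    linarith

end Pool.Agent.H44S
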