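import Pool.Agent.Lib.H44S.C2

/-!
# Chunk C3 (M): a pair that can be split off

Fix `p ≠ u, v0` (there are at least four vertices). Suppose that every `q ≠ u, v0, p` fails: there is an
odd `Z` with `u ∉ Z`, `p, q ∈ Z`, `cutW x Z < r + 2`, so `cutW x Z = r` (`hcut` and `cut_parity`: all
vertices of `Z` have degree `r`). Such a `q` exists, so there is an odd `Z` with `u ∉ Z`, `p ∈ Z`,
`cutW x Z = r`; take one with the largest number of elements. If some `q ≠ u, v0` were not in `Z`,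
`tight_union2` with the set of `q` gives a larger one. So `Z ⊇ univ \ {u, v0}`. This set has
even size, so `Z = univ \ {u}`, and `cutW x Z = cutW x {u} = dg x u = r + 2 k > r`
(`cutW_compl`, `cutW_singleton`): contradiction.
-/

namespace Pool.Agent.H44S

open Finset Pool.Agent.H44O
open scoped Classical

variable {V : Type*} [Fintype V]

theorem c3_tight {x : V → V → ℤ} (hx : IsW x) {r : ℤ} {u : V} (hr : ∀ a, a ≠ u → dg x a = r)
    (hcut : ∀ Z : Finset V, Odd Z.card → u ∉ Z → r ≤ cutW x Z) {Z : Finset V} (hZ : Odd Z.card)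
    (huZ : u ∉ Z) (h : cutW x Z < r + 2) : cutW x Z = r := by
  have h1 := hcut Z hZ huZ
  have h2 := cut_parity hx hZ (r := r) (fun a ha => hr a (fun h => huZ (h ▸ ha)))
  obtain ⟨m, hm⟩ := h2
  omega

theorem split_one (hV : Even (Fintype.card V)) (h4 : 4 ≤ Fintype.card V) {x : V → V → ℤ}
    (hx : IsW x) {r k : ℤ} {u v0 : V} (huv : u ≠ v0) (hk : 1 ≤ k) (hr : ∀ a, a ≠ u → dg x a = r)
    (hu : dg x u = r + 2 * k) (hcut : ∀ Z : Finset V, Odd Z.card → u ∉ Z → r ≤ cutW x Z)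
    (hpos : ∀ a, a ≠ u → a ≠ v0 → 1 ≤ x u a) :
    ∃ p q, p ≠ q ∧ p ≠ u ∧ q ≠ u ∧ p ≠ v0 ∧ q ≠ v0 ∧
      ∀ Z : Finset V, Odd Z.card → u ∉ Z → p ∈ Z → q ∈ Z → r + 2 ≤ cutW x Z := by
  obtain ⟨p, hp⟩ : ∃ p, p ∉ ({u, v0} : Finset V) := by
    by_contra h
    push Not at h
    have h1 : (Finset.univ : Finset V) ⊆ {u, v0} := fun a _ => h a
    have h2 := Finset.card_le_card h1
    have h3 := Finset.card_le_two (a := u) (b := v0)
    rw [Finset.card_univ] at h2
    omega
  simp only [Finset.mem_insert, Finset.mem_singleton, not_or] at hp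
  obtain ⟨hpu, hp0⟩ := hp
  by_contra hcon
  have hbad : ∀ q, q ≠ u → q ≠ v0 → q ≠ p → ∃ Z : Finset V, Odd Z.card ∧ u ∉ Z ∧ p ∈ Z ∧ q ∈ Z ∧
      cutW x Z = r := by
    intro q hqu hq0 hqp
    by_contra h
    apply hcon
    refine ⟨p, q, Ne.symm hqp, hpu, hqu, hp0, hq0, ?_⟩
    intro Z hZ huZ hpZ hqZ
    by_contra h2
    exact h ⟨Z, hZ, huZ, hpZ, hqZ, c3_tight hx hr hcut hZ huZ (not_le.mp h2)⟩
  obtain ⟨q0, hq0⟩ : ∃ q, q ∉ ({u, v0, p} : Finset V) := by
    by_contra h
    push Not at h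
    have h1 : (Finset.univ : Finset V) ⊆ {u, v0, p} := fun a _ => h a
    have h2 := Finset.card_le_card h1
    have h3 := Finset.card_le_three (a := u) (b := v0) (c := p)
    rw [Finset.card_univ] at h2
    omega
  simp only [Finset.mem_insert, Finset.mem_singleton, not_or] at hq0
  obtain ⟨Z0, hZ0, huZ0, hpZ0, -, htZ0⟩ := hbad q0 hq0.1 hq0.2.1 hq0.2.2
  obtain ⟨Z, hZm, hmax⟩ := Finset.exists_max_image
    (Finset.univ.filter (fun Z : Finset V => Odd Z.card ∧ u ∉ Z ∧ p ∈ Z ∧ cutW x Z = r))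
    Finset.card ⟨Z0, by simp only [Finset.mem_filter, Finset.mem_univ, true_and]; exact ⟨hZ0, huZ0, hpZ0, htZ0⟩⟩
  simp only [Finset.mem_filter, Finset.mem_univ, true_and] at hZm hmax
  obtain ⟨hZ, huZ, hpZ, htZ⟩ := hZm
  have hsub : ∀ q, q ≠ u → q ≠ v0 → q ∈ Z := by
    intro q hqu hq0
    by_contra hqZ
    have hqp : q ≠ p := fun h => hqZ (h ▸ hpZ)
    obtain ⟨Y, hY, huY, hpY, hqY, htY⟩ := hbad q hqu hq0 hqp
    obtain ⟨ho, ht⟩ := tight_union2 hx hcut hZ hY huZ huY htZ htY hpZ hpY (hpos p hpu hp0)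
    have h1 := hmax (Z ∪ Y) ⟨ho, by simp [huZ, huY], by simp [hpZ], ht⟩
    have h2 : Z ⊂ Z ∪ Y := by
      refine ⟨Finset.subset_union_left, fun h => hqZ (h ?_)⟩
      exact Finset.mem_union_right _ hqY
    have h3 := Finset.card_lt_card h2
    omega
  by_cases hv : v0 ∈ Z
  · have h1 : Z = ({u} : Finset V)ᶜ := by
      ext a
      simp only [Finset.mem_compl, Finset.mem_singleton]
      constructor
      · intro ha h
        exact huZ (h ▸ ha)
      · intro ha
        by_cases ha0 : a = v0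
        · rw [ha0]
          exact hv
        · exact hsub a ha ha0
    rw [h1, cutW_compl hx, cutW_singleton hx, hu] at htZ
    omega
  · have h1 : Z = ({u, v0} : Finset V)ᶜ := by
      ext a
      simp only [Finset.mem_compl, Finset.mem_insert, Finset.mem_singleton, not_or]
      constructor
      · intro ha
        exact ⟨fun h => huZ (h ▸ ha), fun h => hv (h ▸ ha)⟩
      · rintro ⟨ha, ha0⟩
        exact hsub a ha ha0
    have h2 : Z.card = Fintype.card V - 2 := by
      rw [h1, Finset.card_compl, Finset.card_pair huv]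
    obtain ⟨a, ha⟩ := hZ
    obtain ⟨b, hb⟩ := hV
    omega

end Pool.Agent.H44S
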