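import Pool.Agent.Lib.H44S.SDefs

/-!
# Chunk C4 (M): the effect of splitting off

`spl u p q = ed p q - ed u p - ed u q` with `u, p, q` different.
* `isW_spl`: symmetry and diagonal from the definition of `ed`; nonnegativity: the only negative
  entries are at `(u, p)`, `(p, u)`, `(u, q)`, `(q, u)`, where `x` is at least `1`.
* `dg_spl`: `d13_dg_ed`.
* `cut_spl`: `cutW (ed a b) Z` is `1` if exactly one of `a, b` is in `Z` and `0` otherwise; `u ∉ Z`.
* `spls_real`, `spls_none`, `spls_v0`, `dg_spls`: induction on the list.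
-/

namespace Pool.Agent.H44S

open Finset Pool.Agent.H44O
open scoped Classical

variable {V : Type*}

/-- the pairs of a list are pairs of different vertices, different from `u` and `v0` -/
def Good (u v0 : V) (P : List (V × V)) : Prop :=
  ∀ e ∈ P, e.1 ≠ e.2 ∧ e.1 ≠ u ∧ e.2 ≠ u ∧ e.1 ≠ v0 ∧ e.2 ≠ v0

theorem c4_ed_symm (p q a b : V) : ed p q a b = ed p q b a := by
  have : ((a = p ∧ b = q) ∨ (a = q ∧ b = p)) ↔ ((b = p ∧ a = q) ∨ (b = q ∧ a = p)) := by tauto
  unfold ed
  simp only [this]

theorem c4_spl_apply (u p q a b : V) : spl u p q a b = ed p q a b - ed u p a b - ed u q a b := rfl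

theorem c4_ed_nonneg (p q a b : V) : 0 ≤ ed p q a b := by
  unfold ed
  split_ifs <;> norm_num

theorem c4_cons (u : V) (e : V × V) (P : List (V × V)) (a b : V) :
    spls u (e :: P) a b = spl u e.1 e.2 a b + spls u P a b := by
  simp [spls]

theorem c4_nil (u : V) (a b : V) : spls u ([] : List (V × V)) a b = 0 := by
  simp [spls]

theorem isW_spl {x : V → V → ℤ} (hx : IsW x) {u p q : V} (hpq : p ≠ q) (hpu : p ≠ u) (hqu : q ≠ u)
    (h1 : 1 ≤ x u p) (h2 : 1 ≤ x u q) : IsW (x + spl u p q) := by
  constructor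
  · intro a b
    show x a b + spl u p q a b = x b a + spl u p q b a
    rw [c4_spl_apply, c4_spl_apply, hx.symm a b, c4_ed_symm p q a b, c4_ed_symm u p a b,
      c4_ed_symm u q a b]
  · intro a
    show x a a + spl u p q a a = 0
    rw [c4_spl_apply, hx.diag]
    have e1 : ed p q a a = 0 := by
      unfold ed
      rw [if_neg]
      rintro (⟨h, h'⟩ | ⟨h, h'⟩)
      · exact hpq (h.symm.trans h')
      · exact hpq (h'.symm.trans h)
    have e2 : ed u p a a = 0 := by
      unfold ed
      rw [if_neg]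
      rintro (⟨h, h'⟩ | ⟨h, h'⟩)
      · exact hpu (h'.symm.trans h)
      · exact hpu (h.symm.trans h')
    have e3 : ed u q a a = 0 := by
      unfold ed
      rw [if_neg]
      rintro (⟨h, h'⟩ | ⟨h, h'⟩)
      · exact hqu (h'.symm.trans h)
      · exact hqu (h.symm.trans h')
    rw [e1, e2, e3]
    norm_num
  · intro a b
    show 0 ≤ x a b + spl u p q a b
    rw [c4_spl_apply]
    have h0 := hx.nonneg a b
    have h3 := c4_ed_nonneg p q a b
    by_cases c1 : (a = u ∧ b = p) ∨ (a = p ∧ b = u)
    · have hxab : 1 ≤ x a b := by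
        rcases c1 with ⟨rfl, rfl⟩ | ⟨rfl, rfl⟩
        · exact h1
        · rw [hx.symm]
          exact h1
      have c2 : ¬((a = u ∧ b = q) ∨ (a = q ∧ b = u)) := by
        rintro (⟨h, h'⟩ | ⟨h, h'⟩)
        · rcases c1 with ⟨_, hb⟩ | ⟨ha, _⟩
          · exact hpq (hb.symm.trans h')
          · exact hpu (ha.symm.trans h)
        · rcases c1 with ⟨ha, _⟩ | ⟨ha, _⟩
          · exact hqu (h.symm.trans ha)
          · exact hpq (ha.symm.trans h)
      have e1 : ed u p a b = 1 := if_pos c1
      have e2 : ed u q a b = 0 := if_neg c2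
      rw [e1, e2]
      omega
    · have e1 : ed u p a b = 0 := if_neg c1
      by_cases c2 : (a = u ∧ b = q) ∨ (a = q ∧ b = u)
      · have hxab : 1 ≤ x a b := by
          rcases c2 with ⟨rfl, rfl⟩ | ⟨rfl, rfl⟩
          · exact h2
          · rw [hx.symm]
            exact h2
        have e2 : ed u q a b = 1 := if_pos c2
        rw [e1, e2]
        omega
      · have e2 : ed u q a b = 0 := if_neg c2
        rw [e1, e2]
        omega

theorem spls_real {u v0 : V} {P : List (V × V)} (hP : Good u v0 P) {a b : V} (ha : a ≠ u)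
    (hb : b ≠ u) : 0 ≤ spls u P a b := by
  induction P with
  | nil => rw [c4_nil]
  | cons e P ih =>
    have h1 := ih (fun e he => hP e (List.mem_cons_of_mem _ he))
    rw [c4_cons, c4_spl_apply]
    have h2 := c4_ed_nonneg e.1 e.2 a b
    have e1 : ed u e.1 a b = 0 := if_neg (by
      rintro (⟨h, _⟩ | ⟨_, h⟩)
      · exact ha h
      · exact hb h)
    have e2 : ed u e.2 a b = 0 := if_neg (by
      rintro (⟨h, _⟩ | ⟨_, h⟩)
      · exact ha h
      · exact hb h)
    rw [e1, e2]
    omega

theorem spls_none {u v0 : V} {P : List (V × V)} (hP : Good u v0 P) (a : V) :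
    - (P.length : ℤ) ≤ spls u P u a := by
  induction P with
  | nil =>
    rw [c4_nil]
    simp
  | cons e P ih =>
    have h1 := ih (fun e he => hP e (List.mem_cons_of_mem _ he))
    obtain ⟨g1, g2, g3, -, -⟩ := hP e List.mem_cons_self
    rw [c4_cons, c4_spl_apply, List.length_cons]
    have h2 := c4_ed_nonneg e.1 e.2 u a
    have h3 : ed u e.1 u a + ed u e.2 u a ≤ 1 := by
      unfold ed
      by_cases c1 : a = e.1
      · have c2 : ¬ a = e.2 := fun h => g1 (c1.symm.trans h)
        have c3 : ¬ u = e.2 := fun h => g3 h.symm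
        simp only [c2, c3, and_false, false_and, or_false, if_false, add_zero]
        split_ifs <;> norm_num
      · have c3 : ¬ u = e.1 := fun h => g2 h.symm
        simp only [c1, c3, and_false, false_and, or_false, if_false, zero_add]
        split_ifs <;> norm_num
    push_cast
    omega

theorem spls_v0 {u v0 : V} (huv : u ≠ v0) {P : List (V × V)} (hP : Good u v0 P) (a : V) :
    spls u P v0 a = 0 ∧ spls u P a v0 = 0 := by
  induction P with
  | nil => exact ⟨c4_nil u v0 a, c4_nil u a v0⟩
  | cons e P ih =>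
    obtain ⟨i1, i2⟩ := ih (fun e he => hP e (List.mem_cons_of_mem _ he))
    obtain ⟨g1, g2, g3, g4, g5⟩ := hP e List.mem_cons_self
    have key : ∀ b c : V, b ≠ v0 → c ≠ v0 → ed b c v0 a = 0 := by
      intro b c hb hc
      apply if_neg
      rintro (⟨h, _⟩ | ⟨h, _⟩)
      · exact hb h.symm
      · exact hc h.symm
    have h1 : spl u e.1 e.2 v0 a = 0 := by
      rw [c4_spl_apply, key _ _ g4 g5, key _ _ huv g4, key _ _ huv g5]
      norm_num
    have h2 : spl u e.1 e.2 a v0 = 0 := by
      rw [c4_spl_apply, c4_ed_symm, c4_ed_symm u e.1, c4_ed_symm u e.2, ← c4_spl_apply, h1]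
    rw [c4_cons, c4_cons, i1, i2, h1, h2]
    simp

variable [Fintype V]

theorem dg_spl {u p q : V} (hpq : p ≠ q) (hpu : p ≠ u) (hqu : q ≠ u) (a : V) :
    dg (spl u p q) a = if a = u then -2 else 0 := by
  unfold spl
  rw [dg_sub, dg_sub, d13_dg_ed hpq, d13_dg_ed (Ne.symm hpu), d13_dg_ed (Ne.symm hqu)]
  by_cases h : a = u
  · subst h
    simp [Ne.symm hpu, Ne.symm hqu]
  · simp only [h, if_false]
    ring

theorem c4_cut_ed {a b : V} (hab : a ≠ b) (Z : Finset V) :
    cutW (ed a b) Z = (if a ∈ Z ∧ b ∉ Z then 1 else 0) + (if b ∈ Z ∧ a ∉ Z then 1 else 0) := by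
  have h1 : ∀ s t : V, ed a b s t = (if s = a then (if t = b then 1 else 0) else 0) +
      (if s = b then (if t = a then 1 else 0) else 0) := by
    intro s t
    unfold ed
    by_cases hs : s = a
    · subst hs
      simp [hab]
    · by_cases hs' : s = b
      · subst hs'
        simp [hs]
      · simp [hs, hs']
  unfold cutW
  simp only [h1, Finset.sum_add_distrib]
  congr 1
  · rw [Finset.sum_comm]
    simp only [Finset.sum_ite_eq']
    by_cases ha : a ∈ Z <;> by_cases hb : b ∈ Z <;> simp [ha, hb]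
  · rw [Finset.sum_comm]
    simp only [Finset.sum_ite_eq']
    by_cases ha : a ∈ Z <;> by_cases hb : b ∈ Z <;> simp [ha, hb]

theorem cut_spl {u p q : V} (hpq : p ≠ q) (hpu : p ≠ u) (hqu : q ≠ u) {Z : Finset V} (hu : u ∉ Z) :
    cutW (spl u p q) Z = if p ∈ Z ∧ q ∈ Z then -2 else 0 := by
  unfold spl
  rw [cutW_sub, cutW_sub, c4_cut_ed hpq, c4_cut_ed (Ne.symm hpu), c4_cut_ed (Ne.symm hqu)]
  by_cases hp : p ∈ Z <;> by_cases hq : q ∈ Z <;> simp [hp, hq, hu]

end Pool.Agent.H44S
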