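import Pool.Agent.Lib.H44S.C3
import Pool.Agent.Lib.H44S.C4

/-!
# Chunk C5 (M): splitting off completely

Induction on `k` with `x` generalised. `k = 0`: the empty list (`spls u [] = 0`); for the cuts of the odd
sets that contain `u` use the complement (odd, as the number of vertices is even) and
`cutW_compl`. `k + 1`: `p, q` from `split_one` (with the integer `k + 1`), `x' = x + spl u p q`;
hypotheses for `x'`: `isW_spl`, `dg_add`, `dg_spl` (degree of `u` is now `r + 2 (k + 1) - 2`), `cutW_add`,
`cut_spl`; `spl u p q u a ≥ -1`. The list is `(p, q) :: P'`.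
-/

namespace Pool.Agent.H44S

open Finset Pool.Agent.H44O
open scoped Classical

variable {V : Type*} [Fintype V]

omit [Fintype V] in
theorem c5_cons (u p q : V) (P : List (V × V)) :
    spls u ((p, q) :: P) = spl u p q + spls u P := by
  simp [spls]

omit [Fintype V] in
theorem c5_nil (u : V) : spls u ([] : List (V × V)) = 0 := by
  simp [spls]

theorem split_all (hV : Even (Fintype.card V)) (h4 : 4 ≤ Fintype.card V) {r : ℤ} {u v0 : V}
    (huv : u ≠ v0) (k : ℕ) {x : V → V → ℤ} (hx : IsW x) (hr : ∀ a, a ≠ u → dg x a = r)
    (hu : dg x u = r + 2 * k) (hcut : ∀ Z : Finset V, Odd Z.card → u ∉ Z → r ≤ cutW x Z)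
    (hpos : ∀ a, a ≠ u → a ≠ v0 → (k : ℤ) + 1 ≤ x u a) :
    ∃ P : List (V × V), P.length = k ∧ Good u v0 P ∧ IsW (x + spls u P) ∧
      (∀ a, dg (x + spls u P) a = r) ∧
      ∀ Z : Finset V, Odd Z.card → r ≤ cutW (x + spls u P) Z := by
  induction k generalizing x with
  | zero =>
    refine ⟨[], rfl, ?_, ?_, ?_, ?_⟩
    · intro e he
      simp at he
    · rw [c5_nil, add_zero]
      exact hx
    · intro a
      rw [c5_nil, add_zero]
      by_cases ha : a = u
      · subst ha
        rw [hu]
        simp
      · exact hr a ha
    · intro Z hZ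
      rw [c5_nil, add_zero]
      by_cases huZ : u ∈ Z
      · rw [← cutW_compl hx Z]
        apply hcut
        · rw [Finset.card_compl, Nat.odd_sub (Finset.card_le_univ Z)]
          constructor
          · intro h
            exact absurd h (by simpa using hV)
          · intro h
            exact absurd hZ (by simpa using h)
        · simpa using huZ
      · exact hcut Z hZ huZ
  | succ k ih =>
    obtain ⟨p, q, hpq, hpu, hqu, hp0, hq0, hZ⟩ := split_one (r := r) (k := (k : ℤ) + 1) hV h4 hx huv
      (by omega) hr (by rw [hu]; push_cast; ring) hcut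
      (fun a ha ha0 => by have := hpos a ha ha0; push_cast at this; omega)
    have hup : (1 : ℤ) ≤ x u p := by have := hpos p hpu hp0; push_cast at this; omega
    have huq : (1 : ℤ) ≤ x u q := by have := hpos q hqu hq0; push_cast at this; omega
    have hg1 : Good u v0 [(p, q)] := by
      intro e he
      rw [List.mem_singleton] at he
      subst he
      exact ⟨hpq, hpu, hqu, hp0, hq0⟩
    obtain ⟨P, hl, hg, hw, hd, hc⟩ := ih (x := x + spl u p q) (isW_spl hx hpq hpu hqu hup huq)
      (by
        intro a ha
        rw [dg_add, dg_spl hpq hpu hqu, if_neg ha, hr a ha, add_zero])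
      (by
        rw [dg_add, dg_spl hpq hpu hqu, if_pos rfl, hu]
        push_cast
        ring)
      (by
        intro Z hZo huZ
        rw [cutW_add, cut_spl hpq hpu hqu huZ]
        by_cases h : p ∈ Z ∧ q ∈ Z
        · rw [if_pos h]
          have := hZ Z hZo huZ h.1 h.2
          omega
        · rw [if_neg h, add_zero]
          exact hcut Z hZo huZ)
      (by
        intro a ha ha0
        have h1 := hpos a ha ha0
        have h2 := spls_none hg1 a
        rw [c5_cons, c5_nil, add_zero] at h2
        simp only [List.length_cons, List.length_nil] at h2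
        push_cast at h1 h2
        show (k : ℤ) + 1 ≤ x u a + spl u p q u a
        omega)
    refine ⟨(p, q) :: P, by simp [hl], ?_, ?_, ?_, ?_⟩
    · intro e he
      rw [List.mem_cons] at he
      rcases he with he | he
      · subst he
        exact ⟨hpq, hpu, hqu, hp0, hq0⟩
      · exact hg e he
    · rw [c5_cons, ← add_assoc]
      exact hw
    · rw [c5_cons, ← add_assoc]
      exact hd
    · rw [c5_cons, ← add_assoc]
      exact hc

end Pool.Agent.H44S
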