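import Pool.Agent.Lib.H44S.B1
import Pool.Agent.Lib.H44O.D2

/-!
# Chunk D1 (M/L): from a perfect matching of the contracted graph to one of the graph

Write `A = {v // v ∉ W}`, `τ none = some t` (`τ` has no fixed point), `τ (some t) = none`, so
`t ≠ p, q` (`τ (some p) = some q`, `τ (some q) = some p`).
Choose `w1 ∈ W` with `1 ≤ x w1 t`: if `t.1 ≠ v0` any `w1 ∈ W` (`hheavy`); if `t.1 = v0` then by `hv0` with
`b = none`: `1 ≤ ∑ w ∈ W, x w v0`, so some term is at least `1`. Choose `w2 ≠ w3` in `W`, different from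
`w1`. `ρ` an involution with support `W \ {w1, w2, w3}` (`exists_invol`, even size).
Define `σ v`: if `v ∈ W`: `w1 ↦ t`, `w2 ↦ p`, `w3 ↦ q`, other `v ↦ ρ v`; if `v ∉ W`: `t ↦ w1`, `p ↦ w2`,
`q ↦ w3`, other `v ↦` the vertex `b` with `τ (some v) = some b`. It is an involution
(`Function.Involutive.toPerm`) without fixed points.
* `chi σ ≤ x`: pairs inside `W`, `p w2`, `q w3`, and pairs `v b` outside `W` without `v0`: `hheavy`. Pairs
  `v0 b` outside: `hv0`. The pair `t w1`: by choice. (Symmetry of `x`, `chi_symm`.)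
* the contraction: compare all entries: `none, some v`: `∑ w ∈ W, chi σ w v` is `1` iff `σ v ∈ W` iff
  `v ∈ {t, p, q}`; the right side `chi τ - spl` at `(none, some v)` is
  `[v = t] + [v = p] + [v = q]`; at `(some u, some v)`: `chi τ - ed p q`.
-/

namespace Pool.Agent.H44S

open Finset Pool.Agent.H44O
open scoped Classical

variable {V : Type*}

theorem d1_ite {P Q : Prop} {dP : Decidable P} {dQ : Decidable Q} (h : P ↔ Q) :
    @ite ℤ P dP 1 0 = @ite ℤ Q dQ 1 0 := by
  by_cases hP : P
  · rw [if_pos hP, if_pos (h.mp hP)]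
  · rw [if_neg hP, if_neg (fun hQ => hP (h.mpr hQ))]

theorem d1_ed_symm (p q a b : V) : ed p q a b = ed p q b a := by
  have : ((a = p ∧ b = q) ∨ (a = q ∧ b = p)) ↔ ((b = p ∧ a = q) ∨ (b = q ∧ a = p)) := by tauto
  unfold ed
  simp only [this]

theorem d1_ed_nonneg (p q a b : V) : 0 ≤ ed p q a b := by
  unfold ed
  split_ifs <;> norm_num

theorem d1_kappa {A : Type*} {τ : Equiv.Perm (Option A)} (hτ : IsPM τ) {p q t : A}
    (hpq : τ (some p) = some q) (ht : τ none = some t) :
    ∃ κ : Equiv.Perm A, (∀ a, κ (κ a) = a) ∧ κ p = p ∧ κ q = q ∧ κ t = t ∧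
      (∀ a, κ a = a → a = p ∨ a = q ∨ a = t) ∧
      ∀ a b, chi τ (some a) (some b) = chi κ a b + ed p q a b := by
  have htn : τ (some t) = none := by rw [← ht, hτ.1]
  have hqp : τ (some q) = some p := by rw [← hpq, hτ.1]
  have hne : p ≠ q := by
    intro h
    apply hτ.2 (some p)
    rw [hpq, h]
  have hpt : p ≠ t := by
    intro h
    rw [h, htn] at hpq
    exact absurd hpq (by simp)
  have hqt : q ≠ t := by
    intro h
    rw [h, htn] at hqp
    exact absurd hqp (by simp)
  have r1 : ∀ a, a ≠ t → some (Equiv.removeNone τ a) = τ (some a) := by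
    intro a ha
    apply Equiv.removeNone_some
    rcases h : τ (some a) with _ | b
    · exfalso
      apply ha
      have h2 : τ (τ (some a)) = τ none := by rw [h]
      rw [hτ.1, ht] at h2
      exact Option.some_injective _ h2
    · exact ⟨b, rfl⟩
  have r2 : Equiv.removeNone τ t = t := by
    apply Option.some_injective
    rw [Equiv.removeNone_none τ htn, ht]
  have rp : Equiv.removeNone τ p = q := by
    apply Option.some_injective
    rw [r1 p hpt, hpq]
  have rq : Equiv.removeNone τ q = p := by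
    apply Option.some_injective
    rw [r1 q hqt, hqp]
  have rinv : ∀ a, Equiv.removeNone τ (Equiv.removeNone τ a) = a := by
    intro a
    by_cases ha : a = t
    · rw [ha, r2, r2]
    · have h1 := r1 a ha
      have h2 : Equiv.removeNone τ a ≠ t := by
        intro h
        rw [h] at h1
        have h3 : τ (some t) = τ (τ (some a)) := by rw [← h1]
        rw [hτ.1, htn] at h3
        exact absurd h3 (by simp)
      apply Option.some_injective
      rw [r1 _ h2, h1, hτ.1]
  refine ⟨Equiv.removeNone τ * Equiv.swap p q, ?_, ?_, ?_, ?_, ?_, ?_⟩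
  · intro a
    simp only [Equiv.Perm.mul_apply]
    by_cases h1 : a = p
    · subst h1
      rw [Equiv.swap_apply_left, rq, Equiv.swap_apply_left, rq]
    · by_cases h2 : a = q
      · subst h2
        rw [Equiv.swap_apply_right, rp, Equiv.swap_apply_right, rp]
      · rw [Equiv.swap_apply_of_ne_of_ne h1 h2, Equiv.swap_apply_of_ne_of_ne, rinv]
        · intro h3
          apply h2
          rw [← rinv a, h3, rp]
        · intro h3
          apply h1
          rw [← rinv a, h3, rq]
  · rw [Equiv.Perm.mul_apply, Equiv.swap_apply_left, rq]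
  · rw [Equiv.Perm.mul_apply, Equiv.swap_apply_right, rp]
  · rw [Equiv.Perm.mul_apply, Equiv.swap_apply_of_ne_of_ne hpt.symm hqt.symm, r2]
  · intro a ha
    by_contra hcon
    push Not at hcon
    obtain ⟨h1, h2, h3⟩ := hcon
    rw [Equiv.Perm.mul_apply, Equiv.swap_apply_of_ne_of_ne h1 h2] at ha
    have h4 := r1 a h3
    rw [ha] at h4
    exact hτ.2 (some a) h4.symm
  · intro a b
    have hκp : (Equiv.removeNone τ * Equiv.swap p q) p = p := by
      rw [Equiv.Perm.mul_apply, Equiv.swap_apply_left, rq]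
    have hκq : (Equiv.removeNone τ * Equiv.swap p q) q = q := by
      rw [Equiv.Perm.mul_apply, Equiv.swap_apply_right, rp]
    have h1 := d13_swap_chi hκp hκq hne
    rw [mul_assoc, Equiv.swap_mul_self, mul_one] at h1
    have h2 : chi (Equiv.removeNone τ) a b =
        chi (Equiv.removeNone τ * Equiv.swap p q) a b + ed p q a b := by
      rw [h1]
      rfl
    rw [← h2]
    by_cases ha : a = t
    · subst ha
      unfold chi
      rw [if_neg, if_neg]
      · rintro ⟨h, h'⟩
        rw [r2] at h
        exact h' h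
      · rintro ⟨h, -⟩
        rw [htn] at h
        exact absurd h (by simp)
    · have h3 := r1 a ha
      unfold chi
      have h4 : (τ (some a) = some b ∧ some a ≠ some b) ↔ (Equiv.removeNone τ a = b ∧ a ≠ b) := by
        rw [← h3]
        simp
      simp only [h4]

/-- the permutation made of `κ` outside `W` and `ρ` inside -/
theorem d1_sigma {W : Finset V} {κ : Equiv.Perm {v : V // v ∉ W}} {ρ : Equiv.Perm V}
    (hκ : ∀ a, κ (κ a) = a) (hρ : ∀ v, ρ (ρ v) = v) (hρW : ∀ v, ρ v ≠ v → v ∈ W) :
    ∃ σ : Equiv.Perm V, (∀ v, σ (σ v) = v) ∧ (∀ v (h : v ∉ W), σ v = κ ⟨v, h⟩) ∧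
      (∀ v ∈ W, σ v = ρ v) ∧ (∀ v ∈ W, ρ v ∈ W) := by
  have h1 : ∀ v (h : v ∉ W), (Equiv.Perm.ofSubtype κ * ρ) v = κ ⟨v, h⟩ := by
    intro v h
    have h2 : ρ v = v := by
      by_contra h3
      exact h (hρW v h3)
    rw [Equiv.Perm.mul_apply, h2, Equiv.Perm.ofSubtype_apply_of_mem κ h]
  have h2 : ∀ v ∈ W, ρ v ∈ W := by
    intro v hv
    by_cases h3 : ρ v = v
    · rw [h3]
      exact hv
    · apply hρW
      rw [hρ]
      exact Ne.symm h3
  have h3 : ∀ v ∈ W, (Equiv.Perm.ofSubtype κ * ρ) v = ρ v := by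
    intro v hv
    rw [Equiv.Perm.mul_apply]
    exact Equiv.Perm.ofSubtype_apply_of_not_mem κ (not_not.mpr (h2 v hv))
  refine ⟨Equiv.Perm.ofSubtype κ * ρ, ?_, h1, h3, h2⟩
  intro v
  by_cases hv : v ∈ W
  · rw [h3 v hv, h3 _ (h2 v hv), hρ]
  · rw [h1 v hv, h1 _ (κ ⟨v, hv⟩).2]
    exact congrArg Subtype.val (hκ ⟨v, hv⟩)

variable [Fintype V]

omit [Fintype V] in
theorem d1_sum {W : Finset V} {w a : V} (hw : w ∈ W) (ha : a ∉ W) {v : V} (_hv : v ∉ W) :
    ∑ s ∈ W, ed w a s v = if v = a then 1 else 0 := by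
  have h1 : ∀ s ∈ W, ed w a s v = if s = w then (if v = a then 1 else 0) else 0 := by
    intro s hs
    unfold ed
    have h2 : ¬ s = a := fun h => ha (h ▸ hs)
    by_cases h3 : s = w
    · subst h3
      rw [if_pos rfl]
      apply d1_ite
      constructor
      · rintro (h | h)
        · exact h.2
        · exact absurd h.1 h2
      · exact fun h => Or.inl ⟨rfl, h⟩
    · rw [if_neg h3, if_neg]
      rintro (h | h)
      · exact h3 h.1
      · exact h2 h.1
  rw [Finset.sum_congr rfl h1, Finset.sum_ite_eq' W w]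
  simp [hw]

theorem lift_pm {x : V → V → ℤ} (hx : IsW x) {W : Finset V} (hW : Odd W.card) (h3 : 3 ≤ W.card)
    {v0 : V} (hvW : v0 ∉ W) (hheavy : ∀ u v, u ≠ v → u ≠ v0 → v ≠ v0 → 1 ≤ x u v)
    {τ : Equiv.Perm (Option {v : V // v ∉ W})} (hτ : IsPM τ) {p q : {v : V // v ∉ W}}
    (hp : p.1 ≠ v0) (hq : q.1 ≠ v0) (hpq : τ (some p) = some q)
    (hv0 : ∀ b, τ (some ⟨v0, hvW⟩) = b → 1 ≤ con x W (some ⟨v0, hvW⟩) b) :
    ∃ σ : Equiv.Perm V, IsPM σ ∧ (∀ u v, chi σ u v ≤ x u v) ∧
      con (chi σ) W = chi τ - spl none (some p) (some q) := by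
  obtain ⟨t, ht⟩ : ∃ t, τ none = some t := Option.ne_none_iff_exists'.mp (hτ.2 none)
  have htn : τ (some t) = none := by rw [← ht, hτ.1]
  have hqp : τ (some q) = some p := by rw [← hpq, hτ.1]
  have hne : p ≠ q := by
    intro h
    apply hτ.2 (some p)
    rw [hpq, h]
  have hpt : p ≠ t := by
    intro h
    rw [h, htn] at hpq
    exact absurd hpq (by simp)
  have hqt : q ≠ t := by
    intro h
    rw [h, htn] at hqp
    exact absurd hqp (by simp)
  obtain ⟨κ, hκ, hκp, hκq, hκt, hκf, hκc⟩ := d1_kappa hτ hpq ht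
  -- the vertex `w1`
  obtain ⟨w1, hw1, hx1⟩ : ∃ w1 ∈ W, 1 ≤ x w1 t := by
    by_cases h : t.1 = v0
    · have h1 := hv0 none (by
        have : (⟨v0, hvW⟩ : {v : V // v ∉ W}) = t := Subtype.ext h.symm
        rw [this]
        exact htn)
      have h2 : con x W (some ⟨v0, hvW⟩) none = ∑ w ∈ W, x w v0 := rfl
      rw [h2] at h1
      obtain ⟨w, hw, hw'⟩ := Finset.exists_ne_zero_of_sum_ne_zero
        (ne_of_gt (lt_of_lt_of_le one_pos h1))
      refine ⟨w, hw, ?_⟩
      rw [h]
      have := hx.nonneg w v0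
      omega
    · obtain ⟨w, hw⟩ : W.Nonempty := by
        rw [← Finset.card_pos]
        omega
      exact ⟨w, hw, hheavy w t (fun h' => t.2 (h' ▸ hw)) (fun h' => hvW (h' ▸ hw)) h⟩
  obtain ⟨w2, hw2, w3, hw3, hw23⟩ := Finset.one_lt_card.mp (show 1 < (W.erase w1).card by
    rw [Finset.card_erase_of_mem hw1]
    omega)
  rw [Finset.mem_erase] at hw2 hw3
  obtain ⟨hw21, hw2⟩ := hw2
  obtain ⟨hw31, hw3⟩ := hw3
  obtain ⟨ρ, hρ, hρs⟩ := exists_invol (W \ {w1, w2, w3}) (by
    have h1 : ({w1, w2, w3} : Finset V).card = 3 :=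
      Finset.card_eq_three.mpr ⟨w1, w2, w3, Ne.symm hw21, Ne.symm hw31, hw23, rfl⟩
    have h2 : ({w1, w2, w3} : Finset V) ⊆ W := by
      intro a ha
      simp only [Finset.mem_insert, Finset.mem_singleton] at ha
      rcases ha with rfl | rfl | rfl <;> assumption
    rw [Finset.card_sdiff_of_subset h2, h1]
    obtain ⟨m, hm⟩ := hW
    exact ⟨m - 1, by omega⟩)
  obtain ⟨σ0, hσ0, hσo, hσi, hρW⟩ := d1_sigma hκ hρ
    (fun v hv => (Finset.mem_sdiff.mp ((hρs v).mp hv)).1)
  have f1 : σ0 w1 = w1 := by
    rw [hσi w1 hw1]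
    by_contra h
    simpa using (hρs w1).mp h
  have f2 : σ0 w2 = w2 := by
    rw [hσi w2 hw2]
    by_contra h
    simpa using (hρs w2).mp h
  have f3 : σ0 w3 = w3 := by
    rw [hσi w3 hw3]
    by_contra h
    simpa using (hρs w3).mp h
  have ft : σ0 t = t := by rw [hσo t t.2]; exact congrArg Subtype.val hκt
  have fp : σ0 p = p := by rw [hσo p p.2]; exact congrArg Subtype.val hκp
  have fq : σ0 q = q := by rw [hσo q q.2]; exact congrArg Subtype.val hκq
  have hpt' : p.1 ≠ t.1 := fun h => hpt (Subtype.ext h)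
  have hqt' : q.1 ≠ t.1 := fun h => hqt (Subtype.ext h)
  have hpq' : p.1 ≠ q.1 := fun h => hne (Subtype.ext h)
  have ne_out : ∀ {w : V} (_ : w ∈ W) (a : {v : V // v ∉ W}), w ≠ a.1 :=
    fun hw a h => a.2 (h ▸ hw)
  -- first swap
  have c1 := d13_swap_chi f1 ft (ne_out hw1 t)
  have i1 := d13_swap_invol hσ0 f1 ft
  have g2 : (σ0 * Equiv.swap w1 t.1) w2 = w2 := by
    rw [Equiv.Perm.mul_apply, Equiv.swap_apply_of_ne_of_ne hw21 (ne_out hw2 t), f2]
  have gp : (σ0 * Equiv.swap w1 t.1) p.1 = p.1 := by
    rw [Equiv.Perm.mul_apply, Equiv.swap_apply_of_ne_of_ne (ne_out hw1 p).symm hpt', fp]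
  have g3 : (σ0 * Equiv.swap w1 t.1) w3 = w3 := by
    rw [Equiv.Perm.mul_apply, Equiv.swap_apply_of_ne_of_ne hw31 (ne_out hw3 t), f3]
  have gq : (σ0 * Equiv.swap w1 t.1) q.1 = q.1 := by
    rw [Equiv.Perm.mul_apply, Equiv.swap_apply_of_ne_of_ne (ne_out hw1 q).symm hqt', fq]
  have c2 := d13_swap_chi g2 gp (ne_out hw2 p)
  have i2 := d13_swap_invol i1 g2 gp
  have k3 : (σ0 * Equiv.swap w1 t.1 * Equiv.swap w2 p.1) w3 = w3 := by
    rw [Equiv.Perm.mul_apply (σ0 * Equiv.swap w1 t.1),
      Equiv.swap_apply_of_ne_of_ne hw23.symm (ne_out hw3 p), g3]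
  have kq : (σ0 * Equiv.swap w1 t.1 * Equiv.swap w2 p.1) q.1 = q.1 := by
    rw [Equiv.Perm.mul_apply (σ0 * Equiv.swap w1 t.1),
      Equiv.swap_apply_of_ne_of_ne (ne_out hw2 q).symm hpq'.symm, gq]
  have c3 := d13_swap_chi k3 kq (ne_out hw3 q)
  have i3 := d13_swap_invol i2 k3 kq
  have hchi : ∀ u v, chi (σ0 * Equiv.swap w1 t.1 * Equiv.swap w2 p.1 * Equiv.swap w3 q.1) u v =
      chi σ0 u v + ed w1 t.1 u v + ed w2 p.1 u v + ed w3 q.1 u v := by
    intro u v
    rw [c3, c2, c1]
    rfl
  generalize hσ : σ0 * Equiv.swap w1 t.1 * Equiv.swap w2 p.1 * Equiv.swap w3 q.1 = σ at hchi i3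
  have hfix : ∀ v, σ0 v = v → v = w1 ∨ v = w2 ∨ v = w3 ∨ v = t.1 ∨ v = p.1 ∨ v = q.1 := by
    intro v hv
    by_cases hvW' : v ∈ W
    · rw [hσi v hvW'] at hv
      by_contra hcon
      push Not at hcon
      have : v ∈ W \ {w1, w2, w3} := by
        simp only [Finset.mem_sdiff, Finset.mem_insert, Finset.mem_singleton]
        exact ⟨hvW', fun h => by rcases h with h | h | h; exacts [hcon.1 h, hcon.2.1 h, hcon.2.2.1 h]⟩
      exact (hρs v).mpr this hv
    · rw [hσo v hvW'] at hv
      rcases hκf ⟨v, hvW'⟩ (Subtype.ext hv) with h | h | h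
      · exact Or.inr (Or.inr (Or.inr (Or.inr (Or.inl (congrArg Subtype.val h)))))
      · exact Or.inr (Or.inr (Or.inr (Or.inr (Or.inr (congrArg Subtype.val h)))))
      · exact Or.inr (Or.inr (Or.inr (Or.inl (congrArg Subtype.val h))))
  have e_l : ∀ a b : V, ed a b a b = 1 := fun a b => if_pos (Or.inl ⟨rfl, rfl⟩)
  have e_r : ∀ a b : V, ed a b b a = 1 := fun a b => if_pos (Or.inr ⟨rfl, rfl⟩)
  have hpm : IsPM σ := by
    refine ⟨i3, ?_⟩
    intro v hv
    have hz : ∀ u, chi σ v u = 0 := by
      intro u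
      unfold chi
      rw [if_neg]
      rintro ⟨h, h'⟩
      rw [hv] at h
      exact h' h
    have hz' : ∀ u, chi σ0 v u = 0 ∧ ed w1 t.1 v u = 0 ∧ ed w2 p.1 v u = 0 ∧
        ed w3 q.1 v u = 0 := by
      intro u
      have h0 := hchi v u
      rw [hz u] at h0
      have a1 := chi_nonneg σ0 v u
      have a2 := d1_ed_nonneg w1 t.1 v u
      have a3 := d1_ed_nonneg w2 p.1 v u
      have a4 := d1_ed_nonneg w3 q.1 v u
      refine ⟨?_, ?_, ?_, ?_⟩ <;> omega
    have hv0' : σ0 v = v := by
      by_contra h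
      have h1 := (hz' (σ0 v)).1
      unfold chi at h1
      rw [if_pos ⟨rfl, Ne.symm h⟩] at h1
      norm_num at h1
    rcases hfix v hv0' with rfl | rfl | rfl | rfl | rfl | rfl
    · have := (hz' t.1).2.1
      rw [e_l] at this
      norm_num at this
    · have := (hz' p.1).2.2.1
      rw [e_l] at this
      norm_num at this
    · have := (hz' q.1).2.2.2
      rw [e_l] at this
      norm_num at this
    · have := (hz' w1).2.1
      rw [e_r] at this
      norm_num at this
    · have := (hz' w2).2.2.1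
      rw [e_r] at this
      norm_num at this
    · have := (hz' w3).2.2.2
      rw [e_r] at this
      norm_num at this
  have hedx : ∀ a b u v : V, 1 ≤ x a b → ed a b u v ≠ 0 → 1 ≤ x u v := by
    intro a b u v hab h
    have : (u = a ∧ v = b) ∨ (u = b ∧ v = a) := by
      by_contra hcon
      exact h (if_neg hcon)
    rcases this with ⟨rfl, rfl⟩ | ⟨rfl, rfl⟩
    · exact hab
    · rw [hx.symm]
      exact hab
  have hW0 : ∀ {w : V}, w ∈ W → w ≠ v0 := fun hw h => hvW (h ▸ hw)
  have hout : ∀ u v (hu : u ∉ W) (hv : v ∉ W), chi σ0 u v = chi κ ⟨u, hu⟩ ⟨v, hv⟩ := by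
    intro u v hu hv
    unfold chi
    have h1 : (σ0 u = v ∧ u ≠ v) ↔
        (κ ⟨u, hu⟩ = ⟨v, hv⟩ ∧ (⟨u, hu⟩ : {v : V // v ∉ W}) ≠ ⟨v, hv⟩) := by
      rw [hσo u hu, Subtype.ext_iff, Ne, Ne, Subtype.ext_iff]
    exact d1_ite h1
  refine ⟨σ, hpm, ?_, ?_⟩
  · intro u v
    by_cases h0 : chi σ u v = 0
    · rw [h0]
      exact hx.nonneg u v
    · have h1 := chi_le_one σ u v
      suffices h : 1 ≤ x u v by omega
      by_cases h2 : ed w1 t.1 u v = 0
      · by_cases h3' : ed w2 p.1 u v = 0
        · by_cases h4 : ed w3 q.1 u v = 0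
          · have h5 : chi σ0 u v ≠ 0 := by
              intro h5
              apply h0
              rw [hchi, h5, h2, h3', h4]
              norm_num
            have h6 : σ0 u = v ∧ u ≠ v := by
              by_contra hcon
              exact h5 (if_neg hcon)
            by_cases hu : u ∈ W
            · have h7 : v ∈ W := by
                rw [← h6.1, hσi u hu]
                exact hρW u hu
              exact hheavy u v h6.2 (hW0 hu) (hW0 h7)
            · have h7 : v ∉ W := by
                rw [← h6.1, hσo u hu]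
                exact (κ ⟨u, hu⟩).2
              have h8 : chi τ (some ⟨u, hu⟩) (some ⟨v, h7⟩) ≠ 0 := by
                rw [hκc, ← hout u v hu h7]
                have a1 := chi_nonneg σ0 u v
                have a2 := d1_ed_nonneg p q (⟨u, hu⟩ : {v : V // v ∉ W}) ⟨v, h7⟩
                omega
              have h9 : τ (some ⟨u, hu⟩) = some ⟨v, h7⟩ := by
                by_contra hcon
                exact h8 (if_neg (fun h => hcon h.1))
              by_cases hu0 : u = v0
              · subst hu0
                exact hv0 _ h9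
              · by_cases hv0' : v = v0
                · subst hv0'
                  have h10 : τ (some ⟨v, hvW⟩) = some ⟨u, hu⟩ := by
                    rw [← h9, hτ.1]
                  have h11 := hv0 _ h10
                  rw [hx.symm]
                  exact h11
                · exact hheavy u v h6.2 hu0 hv0'
          · exact hedx w3 q.1 u v (hheavy _ _ (ne_out hw3 q) (hW0 hw3) hq) h4
        · exact hedx w2 p.1 u v (hheavy _ _ (ne_out hw2 p) (hW0 hw2) hp) h3'
      · exact hedx w1 t.1 u v hx1 h2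
  · have hsymL : ∀ a b, con (chi σ) W a b = con (chi σ) W b a := (isW_con (isW_chi hpm.1) W).symm
    have hsymR : ∀ a b, (chi τ - spl none (some p) (some q)) a b =
        (chi τ - spl none (some p) (some q)) b a := by
      intro a b
      show chi τ a b - (ed (some p) (some q) a b - ed none (some p) a b - ed none (some q) a b) =
        chi τ b a - (ed (some p) (some q) b a - ed none (some p) b a - ed none (some q) b a)
      rw [chi_symm hτ.1 a b, d1_ed_symm (some p) (some q) a b, d1_ed_symm none (some p) a b,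
        d1_ed_symm none (some q) a b]
    have hns : ∀ v : {v : V // v ∉ W}, con (chi σ) W none (some v) =
        (chi τ - spl none (some p) (some q)) none (some v) := by
      intro v
      have hL : con (chi σ) W none (some v) = ∑ w ∈ W, chi σ w v := rfl
      have h0 : ∑ w ∈ W, chi σ0 w v = 0 := by
        apply Finset.sum_eq_zero
        intro w hw
        apply if_neg
        rintro ⟨h, -⟩
        rw [hσi w hw] at h
        exact v.2 (h ▸ hρW w hw)
      rw [hL, Finset.sum_congr rfl (fun w _ => hchi w v), Finset.sum_add_distrib,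
        Finset.sum_add_distrib, Finset.sum_add_distrib, h0, d1_sum hw1 t.2 v.2, d1_sum hw2 p.2 v.2,
        d1_sum hw3 q.2 v.2]
      show _ = chi τ none (some v) - (ed (some p) (some q) none (some v) -
        ed none (some p) none (some v) - ed none (some q) none (some v))
      have r1 : chi τ none (some v) = if v.1 = t.1 then 1 else 0 := by
        unfold chi
        rw [ht]
        have : (some t = some v ∧ (none : Option {v : V // v ∉ W}) ≠ some v) ↔ v.1 = t.1 := by
          rw [Option.some_inj, Subtype.ext_iff]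
          constructor
          · exact fun h => h.1.symm
          · exact fun h => ⟨h.symm, by simp⟩
        exact d1_ite this
      have r2 : ed (some p) (some q) none (some v) = 0 := if_neg (by simp)
      have r3 : ∀ a : {v : V // v ∉ W}, ed none (some a) none (some v) =
          if v.1 = a.1 then 1 else 0 := by
        intro a
        unfold ed
        have : (((none : Option {v : V // v ∉ W}) = none ∧ some v = some a) ∨
            (none = some a ∧ some v = none)) ↔ v.1 = a.1 := by
          simp [Subtype.ext_iff]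
        exact d1_ite this
      rw [r1, r2, r3, r3]
      ring
    funext a b
    rcases a with _ | u
    · rcases b with _ | v
      · show (0 : ℤ) = chi τ none none - (ed (some p) (some q) none none -
          ed none (some p) none none - ed none (some q) none none)
        have r1 : chi τ none none = 0 := if_neg (fun h => h.2 rfl)
        have r2 : ed (some p) (some q) (none : Option {v : V // v ∉ W}) none = 0 := if_neg (by simp)
        have r3 : ed none (some p) (none : Option {v : V // v ∉ W}) none = 0 := if_neg (by simp)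
        have r4 : ed none (some q) (none : Option {v : V // v ∉ W}) none = 0 := if_neg (by simp)
        rw [r1, r2, r3, r4]
        norm_num
      · exact hns v
    · rcases b with _ | v
      · rw [hsymL, hsymR]
        exact hns u
      · show chi σ u v = chi τ (some u) (some v) - (ed (some p) (some q) (some u) (some v) -
          ed none (some p) (some u) (some v) - ed none (some q) (some u) (some v))
        have r2 : ed (some p) (some q) (some u) (some v) = ed p q u v := by
          unfold ed
          exact d1_ite (by simp only [Option.some_inj])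
        have r3 : ed none (some p) (some u) (some v) = 0 := if_neg (by simp)
        have r4 : ed none (some q) (some u) (some v) = 0 := if_neg (by simp)
        have z : ∀ {w : V} (_ : w ∈ W) (a : {v : V // v ∉ W}), ed w a.1 u.1 v.1 = 0 := by
          intro w hw a
          apply if_neg
          rintro (⟨h, -⟩ | ⟨-, h⟩)
          · exact u.2 (h ▸ hw)
          · exact v.2 (h ▸ hw)
        rw [r2, r3, r4, hκc, hchi, z hw1 t, z hw2 p, z hw3 q, hout u.1 v.1 u.2 v.2]
        ring

end Pool.Agent.H44S
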