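import Pool.Agent.Lib.H44S.C4
import Pool.Agent.Lib.H44S.D1

/-!
# Chunk D2 (M/L): peeling off the perfect matchings that cross `W` three times

Induction on the list `P`, with `x` generalised. `P = []`: `y = x` (`spls u [] = 0`).
`P = (some p, some q) :: P'` (the pairs avoid `none` and `v0`): let `z = con x W + spls none P`
(`= con x W + spl none p q + spls none P'`), `Dec z`. `z (some p) (some q) ≥ x p q + 0 ≥ 1`
(`hheavy`, `spls_real`). From the coefficients `a` of `Dec z` there is `τ` with `a τ ≠ 0`,
`τ (some p) = some q`, and `z - chi τ` is in `Dec` (lower `a τ` by one). `lift_pm` gives `σ`: `hv0`: if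
`τ (some v0) = b` then `1 = chi τ (some v0) b ≤ z (some v0) b = con x W (some v0) b` (`spls_v0`).
`x1 := x - chi σ`: `IsW`, and `con x1 W + spls none P' = con x W - chi τ + spl none p q + spls none P' =
z - chi τ` (`con_sub`). The pairs of `x1` away from `v0` are at least `|P'| + 1`. The induction
hypothesis gives `y`; `Dec y → Dec x1 → Dec x` (`dec_add`, `dec_chi`). Degrees: `dg_sub`, `dg_chi`.
Cut of `W`: `cutW (chi σ) W = 3`: it is the degree of `none` in `con (chi σ) W` (`dg_con_none`), i.e.
`1 - (-2)` (`dg_sub`, `dg_chi`, `dg_spl`). Other cuts: `cutW (chi σ) U ≤ card V` (`cut_chi_le`).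
-/

namespace Pool.Agent.H44S

open Finset Pool.Agent.H44O
open scoped Classical

variable {V : Type*} [Fintype V]

omit [Fintype V] in
theorem d2_cons (u p q : V) (P : List (V × V)) :
    spls u ((p, q) :: P) = spl u p q + spls u P := by
  simp [spls]

omit [Fintype V] in
theorem d2_nil (u : V) : spls u ([] : List (V × V)) = 0 := by
  simp [spls]

theorem d2_dec_sub {z : V → V → ℤ} {a : Equiv.Perm V → ℕ} (ha : ∀ τ, a τ ≠ 0 → IsPM τ)
    (hz : ∀ u v, z u v = ∑ τ, (a τ : ℤ) * chi τ u v) {τ : Equiv.Perm V} (hτ : a τ ≠ 0) :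
    Dec (z - chi τ) := by
  refine ⟨fun σ => if σ = τ then a τ - 1 else a σ, ?_, ?_⟩
  · intro σ hσ
    by_cases h : σ = τ
    · rw [h]
      exact ha τ hτ
    · simp only [h, if_false] at hσ
      exact ha σ hσ
  · intro u v
    have h1 : ∀ σ : Equiv.Perm V, (a σ : ℤ) * chi σ u v =
        ((if σ = τ then a τ - 1 else a σ : ℕ) : ℤ) * chi σ u v + if σ = τ then chi τ u v else 0 := by
      intro σ
      by_cases h : σ = τ
      · subst h
        simp only [if_true]
        have : ((a σ - 1 : ℕ) : ℤ) = (a σ : ℤ) - 1 := by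
          have : 1 ≤ a σ := Nat.one_le_iff_ne_zero.mpr hτ
          push_cast [Nat.cast_sub this]
          ring
        rw [this]
        ring
      · simp only [h, if_false, add_zero]
    show z u v - chi τ u v = _
    rw [hz u v, Finset.sum_congr rfl (fun σ _ => h1 σ), Finset.sum_add_distrib,
      Finset.sum_ite_eq' Finset.univ τ (fun _ => chi τ u v)]
    simp

theorem peel {W : Finset V} (hW : Odd W.card) (h3 : 3 ≤ W.card) {v0 : V} (hvW : v0 ∉ W)
    (P : List (Option {v : V // v ∉ W} × Option {v : V // v ∉ W}))
    (hP : Good none (some ⟨v0, hvW⟩) P) {x : V → V → ℤ} (hx : IsW x)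
    (hheavy : ∀ u v, u ≠ v → u ≠ v0 → v ≠ v0 → (P.length : ℤ) + 1 ≤ x u v)
    (hdec : Dec (con x W + spls none P)) :
    ∃ y : V → V → ℤ, IsW y ∧ (∀ u v, x u v - P.length ≤ y u v) ∧
      (∀ u, dg y u = dg x u - P.length) ∧ Dec (con y W) ∧
      cutW y W = cutW x W - 3 * P.length ∧
      (∀ U : Finset V, cutW x U - P.length * Fintype.card V ≤ cutW y U) ∧ (Dec y → Dec x) := by
  induction P generalizing x with
  | nil =>
    rw [d2_nil, add_zero] at hdec
    exact ⟨x, hx, by simp, by simp, hdec, by simp, by simp, fun h => h⟩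
  | cons e P' ih =>
    obtain ⟨s, t⟩ := e
    have hP' : Good none (some ⟨v0, hvW⟩) P' := fun e he => hP e (List.mem_cons_of_mem _ he)
    obtain ⟨hst, hsn, htn, hs0, ht0⟩ := hP (s, t) List.mem_cons_self
    simp only at hst hsn htn hs0 ht0
    obtain ⟨p, rfl⟩ := Option.ne_none_iff_exists'.mp hsn
    obtain ⟨q, rfl⟩ := Option.ne_none_iff_exists'.mp htn
    have hpq : p ≠ q := fun h => hst (by rw [h])
    have hp0 : p.1 ≠ v0 := fun h => hs0 (by rw [Option.some_inj]; exact Subtype.ext h)
    have hq0 : q.1 ≠ v0 := fun h => ht0 (by rw [Option.some_inj]; exact Subtype.ext h)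
    obtain ⟨a, ha, hz⟩ := id hdec
    have hone : ∀ u v, u ≠ v → u ≠ v0 → v ≠ v0 → (1 : ℤ) ≤ x u v := by
      intro u v h1 h2 h3
      have := hheavy u v h1 h2 h3
      simp only [List.length_cons] at this
      push_cast at this
      omega
    have hz1 : (1 : ℤ) ≤ (con x W + spls none ((some p, some q) :: P')) (some p) (some q) := by
      have h1 := spls_real hP (a := some p) (b := some q) (by simp) (by simp)
      have h2 : con x W (some p) (some q) = x p q := rfl
      have h3 := hone p.1 q.1 (fun h => hpq (Subtype.ext h)) hp0 hq0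
      show (1 : ℤ) ≤ con x W (some p) (some q) + _
      rw [h2]
      omega
    rw [hz (some p) (some q)] at hz1
    obtain ⟨τ, -, hτ⟩ := Finset.exists_ne_zero_of_sum_ne_zero
      (ne_of_gt (lt_of_lt_of_le one_pos hz1))
    have haτ : a τ ≠ 0 := by
      intro h
      apply hτ
      simp [h]
    have hτpm := ha τ haτ
    have hτpq : τ (some p) = some q := by
      by_contra h
      apply hτ
      simp [chi, h]
    have hdz := d2_dec_sub ha hz haτ
    have hle : ∀ u v, chi τ u v ≤ (con x W + spls none ((some p, some q) :: P')) u v := by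
      intro u v
      have := (dec_isW hdz).nonneg u v
      have h2 : (con x W + spls none ((some p, some q) :: P') - chi τ) u v =
        (con x W + spls none ((some p, some q) :: P')) u v - chi τ u v := rfl
      omega
    obtain ⟨σ, hσ, hσx, hσc⟩ := lift_pm hx hW h3 hvW hone hτpm hp0 hq0 hτpq (by
      intro b hb
      have h1 := hle (some ⟨v0, hvW⟩) b
      have h2 : (con x W + spls none ((some p, some q) :: P')) (some ⟨v0, hvW⟩) b =
        con x W (some ⟨v0, hvW⟩) b + spls none ((some p, some q) :: P') (some ⟨v0, hvW⟩) b := rfl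
      rw [h2, (spls_v0 (by simp) hP b).1, add_zero, chi_pm hτpm, if_pos hb] at h1
      exact h1)
    have hx1 : IsW (x - chi σ) := by
      constructor
      · intro u v
        show x u v - chi σ u v = x v u - chi σ v u
        rw [hx.symm u v, chi_symm hσ.1 u v]
      · intro v
        show x v v - chi σ v v = 0
        rw [hx.diag, chi_diag]
        rfl
      · intro u v
        show 0 ≤ x u v - chi σ u v
        have := hσx u v
        omega
    obtain ⟨y, hy, hyx, hyd, hyc, hyW, hyU, hyD⟩ := ih hP' hx1
      (by
        intro u v h1 h2 h3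
        have h4 := hheavy u v h1 h2 h3
        have h5 := chi_le_one σ u v
        simp only [List.length_cons] at h4
        push_cast at h4
        show (P'.length : ℤ) + 1 ≤ x u v - chi σ u v
        omega)
      (by
        have : con (x - chi σ) W + spls none P' =
            con x W + spls none ((some p, some q) :: P') - chi τ := by
          rw [con_sub, hσc, d2_cons]
          abel
        rw [this]
        exact hdz)
    have hcutσ : cutW (chi σ) W = 3 := by
      rw [← dg_con_none, hσc, dg_sub, dg_chi hτpm, dg_spl hst hsn htn, if_pos rfl]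
      norm_num
    have hlen : ((((some p, some q) :: P').length : ℕ) : ℤ) = (P'.length : ℤ) + 1 := by
      simp
    rw [hlen]
    refine ⟨y, hy, ?_, ?_, hyc, ?_, ?_, ?_⟩
    · intro u v
      have h1 := hyx u v
      have h2 := chi_le_one σ u v
      have h3 : (x - chi σ) u v = x u v - chi σ u v := rfl
      rw [h3] at h1
      omega
    · intro u
      rw [hyd, dg_sub, dg_chi hσ]
      ring
    · rw [hyW, cutW_sub, hcutσ]
      ring
    · intro U
      have h1 := hyU U
      rw [cutW_sub] at h1
      have h2 := cut_chi_le hσ U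
      have h3 : ((U.card : ℕ) : ℤ) ≤ Fintype.card V := by exact_mod_cast Finset.card_le_univ U
      nlinarith
    · intro h
      have h1 := hyD h
      have h2 : x = x - chi σ + chi σ := by abel
      rw [h2]
      exact dec_add h1 (dec_chi hσ)

end Pool.Agent.H44S
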