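import Pool.Agent.Lib.H44S.SDefs

/-!
# Chunk E1 (S/M): a sum of perfect matchings as a family

`ι := Σ τ : Equiv.Perm V, Fin (a τ)`, `c i = i.1`. `Finset.univ.sum` over a sigma type
(`Fintype.sum_sigma`), `Finset.sum_const`, `Finset.card_fin`; if `i : ι` then `a i.1 ≠ 0`.
-/

namespace Pool.Agent.H44S

open Finset Pool.Agent.H44O
open scoped Classical

variable {V : Type} [Fintype V]

theorem fam_of_dec {x : V → V → ℤ} (h : Dec x) :
    ∃ (ι : Type) (_ : Fintype ι) (c : ι → Equiv.Perm V), (∀ i, IsPM (c i)) ∧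
      ∀ u v, x u v = ∑ i, chi (c i) u v := by
  obtain ⟨a, ha, hx⟩ := h
  refine ⟨(τ : Equiv.Perm V) × Fin (a τ), inferInstance, fun i => i.1, fun i => ?_, fun u v => ?_⟩
  · apply ha
    intro h0
    have h1 := i.2.isLt
    have h2 : a i.1 = 0 := h0
    omega
  · rw [hx u v, Fintype.sum_sigma]
    refine Finset.sum_congr rfl fun τ _ => ?_
    simp

theorem dec_of_fam {ι : Type} [Fintype ι] {c : ι → Equiv.Perm V} (hc : ∀ i, IsPM (c i))
    {x : V → V → ℤ} (hx : ∀ u v, x u v = ∑ i, chi (c i) u v) : Dec x := by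
  refine ⟨fun τ => (univ.filter (fun i => c i = τ)).card, fun τ hτ => ?_, fun u v => ?_⟩
  · obtain ⟨i, hi⟩ := Finset.card_pos.1 (Nat.pos_of_ne_zero hτ)
    rw [← (Finset.mem_filter.1 hi).2]
    exact hc i
  · rw [hx u v, ← Finset.sum_fiberwise_of_maps_to (s := (univ : Finset ι)) (t := univ) (g := c)
      (fun i _ => Finset.mem_univ _)]
    refine Finset.sum_congr rfl fun τ _ => ?_
    rw [Finset.sum_congr rfl (g := fun _ => chi τ u v)]
    · rw [Finset.sum_const, nsmul_eq_mul]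
    · intro i hi
      rw [(Finset.mem_filter.1 hi).2]

end Pool.Agent.H44S
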