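import Pool.Agent.Lib.H44S.SDefs

/-!
# Chunk E2 (M): two families with the same number of members over every cross edge

`f : ι → A`, `g : κ → B` and a table `m : A → B → ℕ` with row sums `|f⁻¹ a|` and column sums `|g⁻¹ b|`.
Let `T := Σ (p : A × B), Fin (m p.1 p.2)`. The map `T → A` has fibre over `a` of size `∑ b, m a b`, so
there is an equivalence `e1 : T ≃ ι` with `f (e1 t) = t.1.1` (`Equiv.ofFiberEquiv` or
`Equiv.sigmaFiberEquiv`, `Fintype.equivOfCardEq` on the fibres); the same for `e2 : T ≃ κ`.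
-/

namespace Pool.Agent.H44S

open Finset Pool.Agent.H44O
open scoped Classical

theorem e2_equiv {T ι A : Type} [Fintype T] [Fintype ι] (t : T → A) (f : ι → A)
    (h : ∀ a, (univ.filter (fun i => t i = a)).card = (univ.filter (fun i => f i = a)).card) :
    ∃ e : T ≃ ι, ∀ x, f (e x) = t x := by
  have h1 : ∀ a, Nonempty ({x // t x = a} ≃ {i // f i = a}) := by
    intro a
    refine Fintype.card_eq.1 ?_
    rw [Fintype.card_subtype, Fintype.card_subtype]
    exact h a
  refine ⟨Equiv.ofFiberEquiv (f := t) (g := f) fun a => (h1 a).some, fun x => ?_⟩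
  exact Equiv.ofFiberEquiv_map _ _

theorem pairing {ι κ A B : Type} [Fintype ι] [Fintype κ] [Fintype A] [Fintype B] (f : ι → A)
    (g : κ → B) (m : A → B → ℕ)
    (h1 : ∀ a, (univ.filter (fun i => f i = a)).card = ∑ b, m a b)
    (h2 : ∀ b, (univ.filter (fun j => g j = b)).card = ∑ a, m a b) :
    ∃ (T : Type) (_ : Fintype T) (e1 : T ≃ ι) (e2 : T ≃ κ),
      ∀ a b, (univ.filter (fun t => f (e1 t) = a ∧ g (e2 t) = b)).card = m a b := by
  let T := (p : A × B) × Fin (m p.1 p.2)
  have hc : ∀ (P : A × B → Prop), (univ.filter (fun t : T => P t.1)).card =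
      ∑ p : A × B, if P p then m p.1 p.2 else 0 := by
    intro P
    rw [Finset.card_filter, Fintype.sum_sigma]
    refine Finset.sum_congr rfl fun p _ => ?_
    by_cases hp : P p <;> simp [hp]
  obtain ⟨e1, he1⟩ := e2_equiv (fun t : T => t.1.1) f (by
    intro a
    rw [h1 a, hc (fun p => p.1 = a), Fintype.sum_prod_type]
    rw [Finset.sum_eq_single a]
    · simp
    · intro b _ hb
      simp [hb]
    · intro h
      exact absurd (Finset.mem_univ a) h)
  obtain ⟨e2, he2⟩ := e2_equiv (fun t : T => t.1.2) g (by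
    intro b
    rw [h2 b, hc (fun p => p.2 = b), Fintype.sum_prod_type]
    refine Finset.sum_congr rfl fun a _ => ?_
    simp)
  refine ⟨T, inferInstance, e1, e2, fun a b => ?_⟩
  have h3 : (univ.filter (fun t => f (e1 t) = a ∧ g (e2 t) = b)) =
      (univ.filter (fun t : T => t.1.1 = a ∧ t.1.2 = b)) := by
    ext t
    simp only [Finset.mem_filter, Finset.mem_univ, true_and, he1, he2]
  rw [h3]
  have h5 : (univ.filter (fun t : T => t.1.1 = a ∧ t.1.2 = b)).card =
      ∑ p : A × B, if p.1 = a ∧ p.2 = b then m p.1 p.2 else 0 := by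
    rw [Finset.card_filter, Fintype.sum_sigma]
    refine Finset.sum_congr rfl fun p _ => ?_
    by_cases hp : p.1 = a ∧ p.2 = b
    · rw [if_pos hp, Finset.sum_congr rfl fun _ _ => if_pos hp]
      simp
    · rw [if_neg hp, Finset.sum_congr rfl fun _ _ => if_neg hp]
      simp
  refine h5.trans ?_
  rw [Finset.sum_eq_single (a, b)]
  · simp
  · rintro ⟨a', b'⟩ _ hb
    rw [if_neg]
    rintro ⟨h4, h5⟩
    exact hb (by simp only at h4 h5; rw [h4, h5])
  · intro h
    exact absurd (Finset.mem_univ _) h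

end Pool.Agent.H44S
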