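import Pool.Agent.Lib.H44S.SDefs
import Pool.Agent.Lib.H44O.A1

/-!
# Chunk E3 (M): gluing two perfect matchings with the same cross edge

`τ1` is a perfect matching of `Option {v // v ∉ W}`, `τ2` one of `Option {v // v ∉ Wᶜ}` (the vertices of
`W`). `σ v` for `v ∉ W`: `a` with `τ1 (some v) = some a`, and `w` if `τ1 (some v) = none` (then `v = o`); for
`v ∈ W`: `b` with `τ2 (some v) = some b`, and `o` if `τ2 (some v) = none` (then `v = w`).
`Function.Involutive.toPerm`. Entries: `chi_pm`.
-/

namespace Pool.Agent.H44S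

open Finset Pool.Agent.H44O
open scoped Classical

variable {V : Type*} [Fintype V]

theorem e3_mem {W : Finset V} {v : V} (h : ¬ v ∉ W) : v ∉ Wᶜ := by
  simpa using h

/-- The glued map. -/
noncomputable def e3fun {W : Finset V} (τ1 : Equiv.Perm (Option {v : V // v ∉ W}))
    (τ2 : Equiv.Perm (Option {v : V // v ∉ Wᶜ}))
    (o : {v : V // v ∉ W}) (w : {v : V // v ∉ Wᶜ}) (v : V) : V :=
  if h : v ∉ W then (τ1 (some ⟨v, h⟩)).elim (w : V) (fun a => (a : V))
  else (τ2 (some ⟨v, e3_mem h⟩)).elim (o : V) (fun b => (b : V))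

theorem e3fun_out {W : Finset V} (τ1 : Equiv.Perm (Option {v : V // v ∉ W}))
    (τ2 : Equiv.Perm (Option {v : V // v ∉ Wᶜ}))
    (o : {v : V // v ∉ W}) (w : {v : V // v ∉ Wᶜ}) (u : {v : V // v ∉ W}) :
    e3fun τ1 τ2 o w u = (τ1 (some u)).elim (w : V) (fun a => (a : V)) := by
  unfold e3fun
  rw [dif_pos u.2]

theorem e3fun_in {W : Finset V} (τ1 : Equiv.Perm (Option {v : V // v ∉ W}))
    (τ2 : Equiv.Perm (Option {v : V // v ∉ Wᶜ}))
    (o : {v : V // v ∉ W}) (w : {v : V // v ∉ Wᶜ}) (u : {v : V // v ∉ Wᶜ}) :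
    e3fun τ1 τ2 o w u = (τ2 (some u)).elim (o : V) (fun a => (a : V)) := by
  have hu : ¬ (u : V) ∉ W := by
    have := u.2
    simpa using this
  unfold e3fun
  rw [dif_neg hu]

theorem glue_pm {W : Finset V} {τ1 : Equiv.Perm (Option {v : V // v ∉ W})}
    {τ2 : Equiv.Perm (Option {v : V // v ∉ Wᶜ})} (h1 : IsPM τ1) (h2 : IsPM τ2)
    {o : {v : V // v ∉ W}} {w : {v : V // v ∉ Wᶜ}} (ho : τ1 none = some o)
    (hw : τ2 none = some w) :
    ∃ σ : Equiv.Perm V, IsPM σ ∧
      (∀ u v : {v : V // v ∉ W}, chi σ u v = chi τ1 (some u) (some v)) ∧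
      (∀ u v : {v : V // v ∉ Wᶜ}, chi σ u v = chi τ2 (some u) (some v)) ∧
      (∀ (u : {v : V // v ∉ W}) (v : {v : V // v ∉ Wᶜ}),
        chi σ u v = (if o = u ∧ w = v then 1 else 0) ∧
        chi σ v u = (if o = u ∧ w = v then 1 else 0)) := by
  have ho' : τ1 (some o) = none := by rw [← ho]; exact h1.1 none
  have hw' : τ2 (some w) = none := by rw [← hw]; exact h2.1 none
  have hon : ∀ u, τ1 (some u) = none → u = o := by
    intro u hu
    have h3 := h1.1 (some u)
    rw [hu, ho] at h3
    exact (Option.some.inj h3).symm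
  have hwn : ∀ u, τ2 (some u) = none → u = w := by
    intro u hu
    have h3 := h2.1 (some u)
    rw [hu, hw] at h3
    exact (Option.some.inj h3).symm
  have hne : ∀ (u : {v : V // v ∉ W}) (v : {v : V // v ∉ Wᶜ}), (u : V) ≠ v := by
    intro u v h
    have hv := v.2
    rw [← h] at hv
    have hu := u.2
    simp at hv
    exact hu hv
  set F := e3fun τ1 τ2 o w with hF
  have hFo : ∀ u : {v : V // v ∉ W}, F u = (τ1 (some u)).elim (w : V) (fun a => (a : V)) :=
    fun u => e3fun_out τ1 τ2 o w u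
  have hFi : ∀ u : {v : V // v ∉ Wᶜ}, F u = (τ2 (some u)).elim (o : V) (fun a => (a : V)) :=
    fun u => e3fun_in τ1 τ2 o w u
  have hcase : ∀ v : V, (∃ u : {v : V // v ∉ W}, (u : V) = v) ∨
      ∃ u : {v : V // v ∉ Wᶜ}, (u : V) = v := by
    intro v
    by_cases hv : v ∉ W
    · exact Or.inl ⟨⟨v, hv⟩, rfl⟩
    · exact Or.inr ⟨⟨v, e3_mem hv⟩, rfl⟩
  have hinv : Function.Involutive F := by
    intro v
    rcases hcase v with ⟨u, rfl⟩ | ⟨u, rfl⟩
    · rw [hFo u]
      rcases h3 : τ1 (some u) with _ | a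
      · have h4 := hon u h3
        subst h4
        rw [Option.elim_none, hFi w, hw', Option.elim_none]
      · have h4 : τ1 (some a) = some u := by rw [← h3]; exact h1.1 _
        rw [Option.elim_some, hFo a, h4, Option.elim_some]
    · rw [hFi u]
      rcases h3 : τ2 (some u) with _ | a
      · have h4 := hwn u h3
        subst h4
        rw [Option.elim_none, hFo o, ho', Option.elim_none]
      · have h4 : τ2 (some a) = some u := by rw [← h3]; exact h2.1 _
        rw [Option.elim_some, hFi a, h4, Option.elim_some]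
  obtain ⟨S, hS⟩ : ∃ S : Equiv.Perm V, ∀ v, S v = F v := ⟨Function.Involutive.toPerm F hinv, fun _ => rfl⟩
  have hpm : IsPM S := by
    refine ⟨fun v => by rw [hS, hS]; exact hinv v, fun v hv => ?_⟩
    have hv' : F v = v := (hS v).symm.trans hv
    rcases hcase v with ⟨u, rfl⟩ | ⟨u, rfl⟩
    · rw [hFo u] at hv'
      rcases h3 : τ1 (some u) with _ | a
      · rw [h3, Option.elim_none] at hv'
        exact hne u w hv'.symm
      · rw [h3, Option.elim_some] at hv'
        rw [Subtype.coe_injective hv'] at h3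
        exact h1.2 _ h3
    · rw [hFi u] at hv'
      rcases h3 : τ2 (some u) with _ | a
      · rw [h3, Option.elim_none] at hv'
        exact hne o u hv'
      · rw [h3, Option.elim_some] at hv'
        rw [Subtype.coe_injective hv'] at h3
        exact h2.2 _ h3
  have hap : ∀ v, S v = F v := hS
  refine ⟨S, hpm, fun u v => ?_, fun u v => ?_, fun u v => ⟨?_, ?_⟩⟩
  · rw [chi_pm hpm, chi_pm h1, hap, hFo u]
    rcases h3 : τ1 (some u) with _ | a
    · rw [Option.elim_none, if_neg (fun h => hne v w h.symm), if_neg (by simp)]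
    · rw [Option.elim_some]
      by_cases h4 : a = v
      · rw [if_pos (by rw [h4]), if_pos (by rw [h4])]
      · rw [if_neg (fun h => h4 (Subtype.coe_injective h)), if_neg (fun h => h4 (Option.some.inj h))]
  · rw [chi_pm hpm, chi_pm h2, hap, hFi u]
    rcases h3 : τ2 (some u) with _ | a
    · rw [Option.elim_none, if_neg (fun h => hne o v h), if_neg (by simp)]
    · rw [Option.elim_some]
      by_cases h4 : a = v
      · rw [if_pos (by rw [h4]), if_pos (by rw [h4])]
      · rw [if_neg (fun h => h4 (Subtype.coe_injective h)), if_neg (fun h => h4 (Option.some.inj h))]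
  · rw [chi_pm hpm, hap, hFo u]
    by_cases h4 : o = u ∧ w = v
    · obtain ⟨rfl, rfl⟩ := h4
      rw [ho', Option.elim_none, if_pos rfl, if_pos ⟨rfl, rfl⟩]
    · rw [if_neg h4, if_neg]
      intro h5
      rcases h3 : τ1 (some u) with _ | a
      · rw [h3, Option.elim_none] at h5
        exact h4 ⟨(hon u h3).symm, Subtype.coe_injective h5⟩
      · rw [h3, Option.elim_some] at h5
        exact hne a v h5
  · rw [chi_pm hpm, hap, hFi v]
    by_cases h4 : o = u ∧ w = v
    · obtain ⟨rfl, rfl⟩ := h4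
      rw [hw', Option.elim_none, if_pos rfl, if_pos ⟨rfl, rfl⟩]
    · rw [if_neg h4, if_neg]
      intro h5
      rcases h3 : τ2 (some v) with _ | a
      · rw [h3, Option.elim_none] at h5
        exact h4 ⟨Subtype.coe_injective h5, (hwn v h3).symm⟩
      · rw [h3, Option.elim_some] at h5
        exact hne u a h5.symm

end Pool.Agent.H44S
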