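import Pool.Agent.Lib.H44S.B1
import Pool.Agent.Lib.H44S.E1
import Pool.Agent.Lib.H44S.E2
import Pool.Agent.Lib.H44S.E3

/-!
# Chunk E4 (M/L): gluing along a set

Families `c1 : ι → Perm (Option {v // v ∉ W})`, `c2 : κ → Perm (Option {v // v ∉ Wᶜ})` from `fam_of_dec`.
`f i := ` the `o` with `c1 i none = some o`, `g j := ` the `w` with `c2 j none = some w` (perfect matchings
have no fixed points). Table `m o w := (x w o).toNat` (`x w o ≥ 0`).
* `|f⁻¹ o| = ∑ i, chi (c1 i) none (some o) = con x W none (some o) = ∑ w ∈ W, x w o = ∑ w, m o w` (sum over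
  the subtype `{v // v ∉ Wᶜ}` = sum over `W`).
* `|g⁻¹ w| = con x Wᶜ none (some w) = ∑ o ∈ Wᶜ, x o w = ∑ o, m o w` (symmetry of `x`).
`pairing` gives `T, e1, e2`; `σ t` from `glue_pm` for `c1 (e1 t)`, `c2 (e2 t)`. Then
`x u v = ∑ t, chi (σ t) u v`: for `u, v ∉ W`: `∑ t, chi (c1 (e1 t)) (some u) (some v)
= ∑ i, chi (c1 i) (some u) (some v) = con x W (some u) (some v) = x u v` (`Equiv.sum_comp`); the same in
`W`; for a cross pair the sum is the number of `t` with `f (e1 t) = u`, `g (e2 t) = v`, which is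
`(x v u).toNat`. Conclude by `dec_of_fam`.
-/

namespace Pool.Agent.H44S

open Finset Pool.Agent.H44O
open scoped Classical

variable {V : Type} [Fintype V]

/-- The number of members of a family of perfect matchings whose edge at `none` ends in `o`. -/
theorem e4_count {U ι : Type} [Fintype ι] {c : ι → Equiv.Perm (Option U)} (hc : ∀ i, IsPM (c i))
    {f : ι → U} (hf : ∀ i, c i none = some (f i)) (o : U) :
    ((univ.filter (fun i => f i = o)).card : ℤ) = ∑ i, chi (c i) none (some o) := by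
  rw [Finset.card_filter, Nat.cast_sum]
  refine Finset.sum_congr rfl fun i _ => ?_
  rw [chi_pm (hc i), hf i]
  by_cases h : f i = o
  · rw [if_pos h, if_pos (by rw [h])]; rfl
  · rw [if_neg h, if_neg (fun h' => h (Option.some.inj h'))]; rfl

theorem glue {x : V → V → ℤ} (hx : IsW x) {W : Finset V} (h1 : Dec (con x W))
    (h2 : Dec (con x Wᶜ)) : Dec x := by
  obtain ⟨ι, _, c1, hc1, hd1⟩ := fam_of_dec h1
  obtain ⟨κ, _, c2, hc2, hd2⟩ := fam_of_dec h2
  have hf' : ∀ i, ∃ o, c1 i none = some o := fun i => by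
    rcases h : c1 i none with _ | o
    · exact absurd h ((hc1 i).2 none)
    · exact ⟨o, rfl⟩
  have hg' : ∀ i, ∃ o, c2 i none = some o := fun i => by
    rcases h : c2 i none with _ | o
    · exact absurd h ((hc2 i).2 none)
    · exact ⟨o, rfl⟩
  choose f hf using hf'
  choose g hg using hg'
  let m : {v : V // v ∉ W} → {v : V // v ∉ Wᶜ} → ℕ := fun o w => (x w o).toNat
  have hm : ∀ o w, ((m o w : ℕ) : ℤ) = x w o := fun o w => Int.toNat_of_nonneg (hx.nonneg _ _)
  have hrow : ∀ o, (@Finset.filter ι (fun i => f i = o) (fun _ => Classical.propDecidable _)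
      univ).card = ∑ w, m o w := by
    intro o
    have h3 : ((@Finset.filter ι (fun i => f i = o) (fun _ => Classical.propDecidable _)
        univ).card : ℤ) = ((∑ w, m o w : ℕ) : ℤ) := by
      rw [e4_count hc1 hf o, ← hd1, Nat.cast_sum]
      simp only [hm]
      change ∑ w ∈ W, x w o = _
      rw [Finset.sum_subtype W (p := fun v => v ∉ Wᶜ) (by intro v; simp)]
    exact_mod_cast h3
  have hcol : ∀ w, (@Finset.filter κ (fun i => g i = w) (fun _ => Classical.propDecidable _)
      univ).card = ∑ o, m o w := by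
    intro w
    have h3 : ((@Finset.filter κ (fun i => g i = w) (fun _ => Classical.propDecidable _)
        univ).card : ℤ) = ((∑ o, m o w : ℕ) : ℤ) := by
      rw [e4_count hc2 hg w, ← hd2, Nat.cast_sum]
      simp only [hm]
      change ∑ o ∈ Wᶜ, x o w = _
      rw [Finset.sum_subtype Wᶜ (p := fun v => v ∉ W) (by intro v; simp)]
      exact Finset.sum_congr rfl fun o _ => hx.symm _ _
    exact_mod_cast h3
  obtain ⟨T, _, e1, e2, hT⟩ := pairing f g m hrow hcol
  choose σ hσ hσ1 hσ2 hσ3 using fun t : T => glue_pm (hc1 (e1 t)) (hc2 (e2 t)) (hf (e1 t)) (hg (e2 t))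
  have hcase : ∀ v : V, (∃ u : {v : V // v ∉ W}, (u : V) = v) ∨
      ∃ u : {v : V // v ∉ Wᶜ}, (u : V) = v := by
    intro v
    by_cases hv : v ∉ W
    · exact Or.inl ⟨⟨v, hv⟩, rfl⟩
    · exact Or.inr ⟨⟨v, e3_mem hv⟩, rfl⟩
  have hcross : ∀ (u : {v : V // v ∉ W}) (v : {v : V // v ∉ Wᶜ}),
      x v u = ∑ t : T, (if f (e1 t) = u ∧ g (e2 t) = v then (1 : ℤ) else 0) := by
    intro u v
    rw [← hm u v, ← hT u v, Finset.card_filter, Nat.cast_sum]
    refine Finset.sum_congr rfl fun t _ => ?_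
    by_cases h : f (e1 t) = u ∧ g (e2 t) = v
    · rw [if_pos h, if_pos h]; rfl
    · rw [if_neg h, if_neg h]; rfl
  refine dec_of_fam (ι := T) hσ fun u v => ?_
  rcases hcase u with ⟨u, rfl⟩ | ⟨u, rfl⟩ <;> rcases hcase v with ⟨v, rfl⟩ | ⟨v, rfl⟩
  · simp only [hσ1]
    rw [Equiv.sum_comp e1 (fun i => chi (c1 i) (some u) (some v)), ← hd1]
    rfl
  · rw [hx.symm, hcross u v]
    exact Finset.sum_congr rfl fun t _ => ((hσ3 t u v).1).symm
  · rw [hcross v u]
    exact Finset.sum_congr rfl fun t _ => ((hσ3 t v u).2).symm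
  · simp only [hσ2]
    rw [Equiv.sum_comp e2 (fun i => chi (c2 i) (some u) (some v)), ← hd2]
    rfl

end Pool.Agent.H44S
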