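import Pool.Agent.Lib.H44S.SDefs
import Pool.Agent.Lib.H44O.G2

/-!
# Chunk F1 (M): the heavy graph is closable if there is no way around

`N = card V ≥ 4`. Let `H = heavy x L`; all pairs away from `v0` are adjacent (`K ≥ L`).
* `v0` has at least three neighbours in `H`: otherwise there are `d1 ≠ d2`, both different from `v0`, such
  that every neighbour of `v0` is `d1` or `d2` (`N ≥ 4`; fill up arbitrarily). Then
  `x v0 d1 + x v0 d2 ≥ r - N L` (all other entries of the row of `v0` are less than `L`), and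
  `inW x {v0, d1, d2} = 2 (x v0 d1 + x v0 d2 + x d1 d2) ≥ 2 r - 2 N L + 2 K`, so by `sum_dg`
  `cutW x {v0, d1, d2} = 3 r - inW ≤ r + 2 N L - 2 K < r`: contradiction to `hcut`.
* `closable_of` (`H44O/D1`): let `H ≤ H' ≠ ⊤`. A non-adjacent pair of `H'` has the form `v0, a` (all other pairs are
  adjacent in `H`). `nb H' v0 ≥ 3`, and `a` is adjacent to all vertices except `v0` and `a`:
  `nb H' a ≥ N - 2`.
-/

namespace Pool.Agent.H44S

open Finset Pool.Agent.H44O
open scoped Classical

variable {V : Type*} [Fintype V]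

theorem f1_three (h4 : 4 ≤ Fintype.card V) {x : V → V → ℤ} (hx : IsW x) {r : ℤ} {L K : ℕ}
    (hr : ∀ u, dg x u = r) (hcut : ∀ U : Finset V, Odd U.card → r ≤ cutW x U) {v0 : V}
    (hK : ∀ u v, u ≠ v → u ≠ v0 → v ≠ v0 → (K : ℤ) ≤ x u v)
    (hKL : Fintype.card V * L + L < K) : 3 ≤ nb (heavy x L) v0 := by
  by_contra hlt
  push Not at hlt
  have hD : (univ.filter (fun v => (heavy x L).Adj v0 v)) ⊆ univ.erase v0 := by
    intro v hv
    rw [mem_erase]
    exact ⟨fun h => (mem_filter.mp hv).2.1 h.symm, mem_univ v⟩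
  obtain ⟨D, hD1, hD2, hD3⟩ := Finset.exists_subsuperset_card_eq hD
    (n := 2) (by unfold nb at hlt; omega) (by
      rw [card_erase_of_mem (mem_univ v0), card_univ]; omega)
  obtain ⟨d1, d2, hd, rfl⟩ := Finset.card_eq_two.mp hD3
  have n1 : d1 ≠ v0 := (mem_erase.mp (hD2 (by simp))).1
  have n2 : d2 ≠ v0 := (mem_erase.mp (hD2 (by simp))).1
  have hsmall : ∀ v, v ≠ d1 → v ≠ d2 → x v0 v ≤ L := by
    intro v h1 h2
    by_cases hv : v = v0
    · rw [hv, hx.diag]
      exact_mod_cast Nat.zero_le L
    · by_contra hc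
      push Not at hc
      have : v ∈ ({d1, d2} : Finset V) := hD1 (by
        rw [mem_filter]
        exact ⟨mem_univ v, fun h => hv h.symm, hc.le, by rw [hx.symm]; exact hc.le⟩)
      simp [h1, h2] at this
  have hrow : r ≤ x v0 d1 + x v0 d2 + Fintype.card V * L := by
    rw [← hr v0]
    unfold dg
    have hle : ∀ v, x v0 v ≤ (if v = d1 then x v0 d1 else 0) + (if v = d2 then x v0 d2 else 0) + L := by
      intro v
      by_cases h1 : v = d1
      · subst h1
        rw [if_pos rfl, if_neg hd]
        have : (0 : ℤ) ≤ L := by exact_mod_cast Nat.zero_le L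
        omega
      · by_cases h2 : v = d2
        · subst h2
          rw [if_pos rfl, if_neg hd.symm]
          have : (0 : ℤ) ≤ L := by exact_mod_cast Nat.zero_le L
          omega
        · rw [if_neg h1, if_neg h2]
          have := hsmall v h1 h2
          omega
    refine (Finset.sum_le_sum fun v _ => hle v).trans ?_
    rw [Finset.sum_add_distrib, Finset.sum_add_distrib, Finset.sum_ite_eq', Finset.sum_ite_eq',
      if_pos (mem_univ _), if_pos (mem_univ _), Finset.sum_const, card_univ, nsmul_eq_mul]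
  have hcard : ({v0, d1, d2} : Finset V).card = 3 := by
    rw [card_insert_of_notMem (by simp [n1.symm, n2.symm]), card_insert_of_notMem (by simp [hd]),
      card_singleton]
  have hc := hcut {v0, d1, d2} (by rw [hcard]; decide)
  have hs := sum_dg x {v0, d1, d2}
  have hin : inW x {v0, d1, d2} = 2 * (x v0 d1 + x v0 d2 + x d1 d2) := by
    unfold inW
    simp only [sum_insert (show v0 ∉ ({d1, d2} : Finset V) by simp [n1.symm, n2.symm]),
      sum_insert (show d1 ∉ ({d2} : Finset V) by simp [hd]), sum_singleton, hx.diag]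
    rw [hx.symm d1 v0, hx.symm d2 v0, hx.symm d2 d1]
    ring
  have hsum : ∑ u ∈ ({v0, d1, d2} : Finset V), dg x u = 3 * r := by
    rw [Finset.sum_congr rfl fun u _ => hr u, sum_const, hcard, nsmul_eq_mul]
    norm_num
  have hk := hK d1 d2 hd n1 n2
  have hKL' : (Fintype.card V : ℤ) * L + L < K := by exact_mod_cast hKL
  have hL0 : (0 : ℤ) ≤ L := by exact_mod_cast Nat.zero_le L
  rw [hsum, hin] at hs
  linarith

theorem star_closable (h4 : 4 ≤ Fintype.card V) {x : V → V → ℤ} (hx : IsW x) {r : ℤ} {L K : ℕ}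
    (hr : ∀ u, dg x u = r) (hcut : ∀ U : Finset V, Odd U.card → r ≤ cutW x U) {v0 : V}
    (hK : ∀ u v, u ≠ v → u ≠ v0 → v ≠ v0 → (K : ℤ) ≤ x u v)
    (hKL : Fintype.card V * L + L < K) : Closable (heavy x L) := by
  have h3 := f1_three h4 hx hr hcut hK hKL
  have hLK : (L : ℤ) ≤ K := by
    have : L ≤ K := by
      have := Nat.zero_le (Fintype.card V * L)
      omega
    exact_mod_cast this
  have hadj : ∀ u v, u ≠ v → u ≠ v0 → v ≠ v0 → (heavy x L).Adj u v := fun u v huv hu hv =>
    ⟨huv, hLK.trans (hK u v huv hu hv), hLK.trans (hK v u huv.symm hv hu)⟩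
  apply closable_of
  intro H' hH' hne
  have hex : ∃ a, a ≠ v0 ∧ ¬ H'.Adj v0 a := by
    by_contra hcon
    push Not at hcon
    apply hne
    ext u v
    rw [SimpleGraph.top_adj]
    constructor
    · intro h
      exact h.ne
    · intro huv
      by_cases hu : u = v0
      · subst hu
        exact hcon v huv.symm
      · by_cases hv : v = v0
        · subst hv
          exact (hcon u hu).symm
        · exact hH' (hadj u v huv hu hv)
  obtain ⟨a, ha, hna⟩ := hex
  refine ⟨v0, a, ha.symm, hna, ?_⟩
  have h1 : 3 ≤ nb H' v0 := h3.trans (nb_mono hH' v0)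
  have h2 : Fintype.card V - 2 ≤ nb H' a := by
    have hsub : (univ.erase v0).erase a ⊆ univ.filter (fun v => H'.Adj a v) := by
      intro v hv
      rw [mem_erase, mem_erase] at hv
      rw [mem_filter]
      exact ⟨mem_univ v, hH' (hadj a v (fun h => hv.1 h.symm) ha hv.2.1)⟩
    have := card_le_card hsub
    rw [card_erase_of_mem (by rw [mem_erase]; exact ⟨ha, mem_univ a⟩),
      card_erase_of_mem (mem_univ v0), card_univ] at this
    unfold nb
    omega
  omega

end Pool.Agent.H44S
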