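import Pool.Agent.Lib.H44S.SDefs

/-!
# Chunk F2 (S): two vertices

`V = {a, b}` (`Fintype.card_eq_two_iff` or `Finset.card_eq_two`). `x u v` is zero on the diagonal and
`x a b = x b a = m ≥ 0`. `Equiv.swap a b` is a perfect matching and `x = m.toNat • chi (swap a b)`.
-/

namespace Pool.Agent.H44S

open Finset Pool.Agent.H44O
open scoped Classical

variable {V : Type*} [Fintype V]

theorem dec_two (h2 : Fintype.card V = 2) {x : V → V → ℤ} (hx : IsW x) : Dec x := by
  obtain ⟨a, b, hab, hu⟩ := Finset.card_eq_two.mp (by rw [Finset.card_univ]; exact h2 :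
    (univ : Finset V).card = 2)
  have hv : ∀ v : V, v = a ∨ v = b := fun v => by
    have : v ∈ (univ : Finset V) := mem_univ v
    rw [hu] at this
    simpa using this
  have hnn : 0 ≤ x a b := hx.nonneg a b
  refine ⟨fun τ => if τ = Equiv.swap a b then (x a b).toNat else 0, ?_, ?_⟩
  · intro τ hτ
    have : τ = Equiv.swap a b := by
      by_contra hne
      exact hτ (if_neg hne)
    subst this
    refine ⟨fun v => Equiv.swap_apply_self _ _ _, fun v => ?_⟩
    rcases hv v with rfl | rfl
    · rw [Equiv.swap_apply_left]
      exact hab.symm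
    · rw [Equiv.swap_apply_right]
      exact hab
  · intro u v
    rw [Finset.sum_eq_single (Equiv.swap a b)]
    · beta_reduce
      rw [if_pos rfl, Int.toNat_of_nonneg hnn]
      unfold chi
      rcases hv u with rfl | rfl <;> rcases hv v with rfl | rfl
      · simp [hx.diag]
      · simp [hab]
      · simp [hab.symm, hx.symm]
      · simp [hx.diag]
    · intro τ _ hτ
      beta_reduce
      rw [if_neg hτ]
      simp
    · intro h
      exact absurd (mem_univ _) h

end Pool.Agent.H44S
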