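import Pool.Agent.Lib.H44S.SDefs

/-!
# Chunk F3 (S): a smallest near-tight set

If no set as in the first alternative's negation exists, the first alternative holds. Otherwise take one
with the smallest number of elements (`Nat.find` on the cardinality, or
`Finset.exists_min_image` on the filter of all such sets).
-/

namespace Pool.Agent.H44S

open Finset Pool.Agent.H44O
open scoped Classical

variable {V : Type*} [Fintype V]

theorem smallest (x : V → V → ℤ) (r : ℤ) (lam : ℕ → ℤ) (v0 : V) :
    (∀ U : Finset V, Odd U.card → v0 ∉ U → 3 ≤ U.card → U.card + 3 ≤ Fintype.card V →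
      r + lam U.card ≤ cutW x U) ∨
    ∃ W : Finset V, Odd W.card ∧ v0 ∉ W ∧ 3 ≤ W.card ∧ W.card + 3 ≤ Fintype.card V ∧
      cutW x W < r + lam W.card ∧
      ∀ Z : Finset V, Odd Z.card → v0 ∉ Z → 3 ≤ Z.card → Z.card < W.card →
        r + lam Z.card ≤ cutW x Z := by
  by_cases h : ∀ U : Finset V, Odd U.card → v0 ∉ U → 3 ≤ U.card → U.card + 3 ≤ Fintype.card V →
      r + lam U.card ≤ cutW x U
  · exact Or.inl h
  · right
    push Not at h
    obtain ⟨U, h1, h2, h3, h4, h5⟩ := h
    obtain ⟨W, hW, hmin⟩ := Finset.exists_min_image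
      (univ.filter (fun U : Finset V => Odd U.card ∧ v0 ∉ U ∧ 3 ≤ U.card ∧
        U.card + 3 ≤ Fintype.card V ∧ cutW x U < r + lam U.card)) Finset.card
      ⟨U, by rw [mem_filter]; exact ⟨mem_univ _, h1, h2, h3, h4, h5⟩⟩
    rw [mem_filter] at hW
    obtain ⟨-, a1, a2, a3, a4, a5⟩ := hW
    refine ⟨W, a1, a2, a3, a4, a5, fun Z z1 z2 z3 z4 => ?_⟩
    by_contra hc
    push Not at hc
    have := hmin Z (by rw [mem_filter]; exact ⟨mem_univ _, z1, z2, z3, by omega, hc⟩)
    omega

end Pool.Agent.H44S
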