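import Pool.Agent.Lib.H44S.B2
import Pool.Agent.Lib.H44S.C5

/-!
# Chunk F4 (M): the outer side

`A = Option {v // v ∉ W}`, `u = none`, `v0' = some ⟨v0, _⟩`, `z = con x W`. Apply `split_all` to `z`:
`card A = N + 1 - |W|` is even and at least `4` (`card_con`); `isW_con`; degrees `dg_con_some`,
`dg_con_none` (`cutW x W = r + 2 k`); cuts: `cut_con` gives a set `Z` of the same size with the same cut;
`z none (some a) = ∑ w ∈ W, x w a ≥ K ≥ k + 1` for `a ≠ v0` (one term is at least `K`, `W` is not empty,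
`v0 ∉ W`; the others are nonnegative).
Then `y = z + spls none P` satisfies the hypotheses of `ih`: pairs `some a, some b` away from `v0`:
`x a b + (≥ 0) ≥ K ≥ K'` (`spls_real`); pairs `none, some a`: `≥ K - k ≥ K'` (`spls_none`, symmetry).
-/

namespace Pool.Agent.H44S

open Finset Pool.Agent.H44O
open scoped Classical

variable {V : Type} [Fintype V]

theorem f4_le {x : V → V → ℤ} (hx : IsW x) {v0 : V} {K : ℕ}
    (hK : ∀ u v, u ≠ v → u ≠ v0 → v ≠ v0 → (K : ℤ) ≤ x u v) {W : Finset V} (hW : Odd W.card)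
    (hvW : v0 ∉ W) {a : V} (haW : a ∉ W) (ha : a ≠ v0) : (K : ℤ) ≤ ∑ w ∈ W, x w a := by
  obtain ⟨w, hw⟩ := Finset.card_pos.1 hW.pos
  have hwa : w ≠ a := by
    rintro rfl
    exact haW hw
  have hw0 : w ≠ v0 := by
    rintro rfl
    exact hvW hw
  exact (hK w a hwa hw0 ha).trans
    (Finset.single_le_sum (f := fun v => x v a) (fun v _ => hx.nonneg v a) hw)

theorem outer (hV : Even (Fintype.card V)) {x : V → V → ℤ} (hx : IsW x) {r : ℤ}
    (hr : ∀ u, dg x u = r) (hcut : ∀ U : Finset V, Odd U.card → r ≤ cutW x U) {v0 : V}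
    {K K' k : ℕ} (hK : ∀ u v, u ≠ v → u ≠ v0 → v ≠ v0 → (K : ℤ) ≤ x u v) (hKk : K' + k + 1 ≤ K)
    {W : Finset V} (hW : Odd W.card) (hvW : v0 ∉ W) (hW3 : W.card + 3 ≤ Fintype.card V)
    (hk : cutW x W = r + 2 * k)
    (ih : ∀ (y : Option {v : V // v ∉ W} → Option {v : V // v ∉ W} → ℤ) (r : ℤ), IsW y →
      (∀ u, dg y u = r) → (∀ U, Odd U.card → r ≤ cutW y U) → ∀ a,
      (∀ u v, u ≠ v → u ≠ a → v ≠ a → (K' : ℤ) ≤ y u v) → Dec y) :
    ∃ P : List (Option {v : V // v ∉ W} × Option {v : V // v ∉ W}), P.length = k ∧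
      Good none (some ⟨v0, hvW⟩) P ∧ Dec (con x W + spls none P) := by
  have hcA := card_con (V := V) W
  have hev : Even (Fintype.card (Option {v : V // v ∉ W})) := by
    have h1 : Fintype.card (Option {v : V // v ∉ W}) = Fintype.card V + 1 - W.card := by omega
    rw [h1]
    exact Nat.Odd.sub_odd hV.add_one hW
  have hKk' : (K' : ℤ) + k + 1 ≤ K := by exact_mod_cast hKk
  have hle : ∀ b : {v : V // v ∉ W}, some b ≠ some (⟨v0, hvW⟩ : {v : V // v ∉ W}) →
      (K : ℤ) ≤ con x W none (some b) := by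
    intro b hb
    refine f4_le hx hK hW hvW b.2 fun h => hb ?_
    rw [show b = ⟨v0, hvW⟩ from Subtype.ext h]
  obtain ⟨P, hP1, hP2, hP3, hP4, hP5⟩ := split_all (V := Option {v : V // v ∉ W}) hev (by omega)
    (r := r) (u := none) (v0 := some ⟨v0, hvW⟩) (by simp) k (x := con x W) (isW_con hx W)
    (fun a ha => by
      rcases a with _ | a
      · exact absurd rfl ha
      · rw [dg_con_some hx, hr])
    (by rw [dg_con_none, hk])
    (fun Z hZ hn => by
      obtain ⟨Z', h1, -, -, h2⟩ := cut_con hx hn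
      rw [h2]
      exact hcut Z' (by rw [h1]; exact hZ))
    (fun a ha ha0 => by
      rcases a with _ | a
      · exact absurd rfl ha
      · have h1 := hle a ha0
        have h2 : (0 : ℤ) ≤ K' := Int.natCast_nonneg _
        linarith)
  refine ⟨P, hP1, hP2, ih _ r hP3 hP4 hP5 (some ⟨v0, hvW⟩) ?_⟩
  have hnone : ∀ b : {v : V // v ∉ W}, some b ≠ some (⟨v0, hvW⟩ : {v : V // v ∉ W}) →
      (K' : ℤ) ≤ (con x W + spls none P) none (some b) := by
    intro b hb
    have h1 := hle b hb
    have h2 := spls_none hP2 (some b)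
    rw [hP1] at h2
    simp only [Pi.add_apply]
    linarith
  intro u v huv hu hv
  rcases u with _ | u <;> rcases v with _ | v
  · exact absurd rfl huv
  · exact hnone v hv
  · rw [hP3.symm]
    exact hnone u hu
  · have h1 := spls_real hP2 (a := some u) (b := some v) (by simp) (by simp)
    have h2 : (K : ℤ) ≤ x u v := by
      refine hK u v (fun h => huv (by rw [Subtype.coe_injective h])) (fun h => hu ?_) (fun h => hv ?_)
      · rw [show u = ⟨v0, hvW⟩ from Subtype.ext h]
      · rw [show v = ⟨v0, hvW⟩ from Subtype.ext h]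
    simp only [Pi.add_apply]
    have h3 : con x W (some u) (some v) = x u v := rfl
    rw [h3]
    have h4 : (0 : ℤ) ≤ k := Int.natCast_nonneg _
    linarith

end Pool.Agent.H44S
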