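import Pool.Agent.Lib.H44S.A2
import Pool.Agent.Lib.H44S.B2

/-!
# Chunk F5 (M): the inner side

`A = Option {v // v ∉ Wᶜ}`, `z = con y Wᶜ`. `card A = |W| + 1` is even and at most `n` (`card_con`,
`|Wᶜ| = card V - |W|`). `isW_con`, `dg_con_some`, `dg_con_none` with `cutW_compl`: all degrees are
`r`. Cuts: let `U` be odd, `3 ≤ |U|`, `|U| + 3 ≤ |W| + 1`. If `none ∉ U`: `cut_con` gives `Z ⊆ W` (elements not in
`Wᶜ`) with the same size and cut; `|Z| < |W|`, so `hin` applies. If `none ∈ U` use `Uᶜ` (`cutW_compl`; odd, as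
`card A` is even; `3 ≤ |Uᶜ|`, `|Uᶜ| + 3 ≤ card A`).
`heavy z L = ⊤`: pairs inside `W`: `hK`; pairs `none, some w`: `∑ v ∈ Wᶜ, y v w ≥ L`, since some `v ∈ Wᶜ`, `v ≠ v0`
exists (`|Wᶜ| ≥ 3`) and its term is at least `L`, the others are nonnegative. So `Closable.top`.
Conclude with `hL` (the property of `L` from `uniform_dec`).
-/

namespace Pool.Agent.H44S

open Finset Pool.Agent.H44O
open scoped Classical

variable {V : Type} [Fintype V]

theorem f5_le {y : V → V → ℤ} (hy : IsW y) {W : Finset V} (hW3 : W.card + 3 ≤ Fintype.card V)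
    {v0 : V} (hvW : v0 ∉ W) {L : ℤ} (hK : ∀ u v, u ≠ v → u ≠ v0 → v ≠ v0 → L ≤ y u v)
    {w : V} (hw : w ∈ W) : L ≤ ∑ v ∈ Wᶜ, y v w := by
  have hc : 1 < Wᶜ.card := by
    rw [Finset.card_compl]
    omega
  obtain ⟨v, hv, hv0⟩ := Finset.exists_mem_ne hc v0
  have hvw : v ≠ w := by
    rintro rfl
    exact (Finset.mem_compl.1 hv) hw
  have hw0 : w ≠ v0 := by
    rintro rfl
    exact hvW hw
  exact (hK v w hvw hv0 hw0).trans
    (Finset.single_le_sum (f := fun v => y v w) (fun v _ => hy.nonneg v w) hv)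

theorem inner {n L : ℕ}
    (hL : ∀ (A : Type) [Fintype A], Even (Fintype.card A) → Fintype.card A ≤ n →
      ∀ (x : A → A → ℤ) (r : ℤ), IsW x → (∀ u, dg x u = r) →
      (∀ U : Finset A, Odd U.card → 3 ≤ U.card → U.card + 3 ≤ Fintype.card A →
        r + L ≤ cutW x U) →
      Closable (heavy x L) → Dec x)
    {y : V → V → ℤ} (hy : IsW y) {r : ℤ} (hr : ∀ u, dg y u = r) {W : Finset V} (hW : Odd W.card)
    (hWn : W.card + 1 ≤ n) (hW3 : W.card + 3 ≤ Fintype.card V) {v0 : V} (hvW : v0 ∉ W)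
    (hcW : cutW y W = r)
    (hin : ∀ Z : Finset V, Odd Z.card → v0 ∉ Z → 3 ≤ Z.card → Z.card < W.card → r + L ≤ cutW y Z)
    (hK : ∀ u v, u ≠ v → u ≠ v0 → v ≠ v0 → (L : ℤ) ≤ y u v) : Dec (con y Wᶜ) := by
  have hcc : Wᶜ.card = Fintype.card V - W.card := Finset.card_compl W
  have hcA : Fintype.card (Option {v : V // v ∉ Wᶜ}) = W.card + 1 := by
    have h1 := card_con (V := V) Wᶜ
    omega
  have hev : Even (Fintype.card (Option {v : V // v ∉ Wᶜ})) := by
    rw [hcA]
    exact hW.add_one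
  have hmem : ∀ u : {v : V // v ∉ Wᶜ}, (u : V) ∈ W := fun u => by
    have := u.2
    simpa using this
  have hne0 : ∀ u : {v : V // v ∉ Wᶜ}, (u : V) ≠ v0 := fun u h => hvW (h ▸ hmem u)
  have hcut0 : ∀ U : Finset (Option {v : V // v ∉ Wᶜ}), none ∉ U → Odd U.card → 3 ≤ U.card →
      U.card + 3 ≤ Fintype.card (Option {v : V // v ∉ Wᶜ}) → r + L ≤ cutW (con y Wᶜ) U := by
    intro U hnU hU h3 hUc
    obtain ⟨Z, hZ1, hZ2, -, hZ4⟩ := cut_con hy (S := Wᶜ) hnU
    rw [hZ4]
    refine hin Z (by rw [hZ1]; exact hU) (fun h => ?_) (by omega) (by omega)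
    exact hZ2 v0 h (Finset.mem_compl.2 hvW)
  refine hL (Option {v : V // v ∉ Wᶜ}) hev (by omega) (con y Wᶜ) r (isW_con hy _) ?_ ?_ ?_
  · intro u
    rcases u with _ | u
    · rw [dg_con_none, cutW_compl hy, hcW]
    · rw [dg_con_some hy, hr]
  · intro U hU h3 hUc
    by_cases hn : none ∈ U
    · have h4 : Uᶜ.card = Fintype.card (Option {v : V // v ∉ Wᶜ}) - U.card := Finset.card_compl U
      have h8 : ∀ i : DecidableEq (Option {v : V // v ∉ Wᶜ}), cutW (con y Wᶜ) (@compl _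
          (@BooleanAlgebra.toCompl _ (@Finset.booleanAlgebra (Option {v : V // v ∉ Wᶜ}) _ i)) U) =
          cutW (con y Wᶜ) U := by
        intro i
        have e : i = fun a b => Classical.propDecidable (a = b) := Subsingleton.elim _ _
        subst e
        exact cutW_compl (isW_con hy Wᶜ) U
      have h7 : cutW (con y Wᶜ) Uᶜ = cutW (con y Wᶜ) U := h8 _
      rw [← h7]
      refine hcut0 Uᶜ (by simpa using hn) ?_ (by omega) (by omega)
      rw [h4]
      exact Nat.Even.sub_odd (by omega) hev hU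
    · exact hcut0 U hn hU h3 hUc
  · have h5 : ∀ u v : Option {v : V // v ∉ Wᶜ}, u ≠ v → (L : ℤ) ≤ con y Wᶜ u v := by
      intro u v huv
      rcases u with _ | u <;> rcases v with _ | v
      · exact absurd rfl huv
      · exact f5_le hy hW3 hvW hK (hmem v)
      · exact f5_le hy hW3 hvW hK (hmem u)
      · exact hK u v (fun h => huv (by rw [Subtype.coe_injective h])) (hne0 u) (hne0 v)
    have h6 : heavy (con y Wᶜ) L = ⊤ := by
      ext u v
      simp only [heavy, SimpleGraph.top_adj]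
      exact ⟨fun h => h.1, fun h => ⟨h, h5 u v h, h5 v u h.symm⟩⟩
    rw [h6]
    exact Closable.top

end Pool.Agent.H44S
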