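import Pool.Agent.Lib.H44S.D2
import Pool.Agent.Lib.H44S.E4
import Pool.Agent.Lib.H44S.F1
import Pool.Agent.Lib.H44S.F2
import Pool.Agent.Lib.H44S.F3
import Pool.Agent.Lib.H44S.F4
import Pool.Agent.Lib.H44S.F5

/-!
# Chunk F6 (M/L): the main induction

`P N` is the statement for `N`; strong induction on `N`. If `N` is odd or zero there is nothing to prove
(a type with a point and even cardinality `N`). `N = 2`: `dec_two`, `K = 0`. Let `N ≥ 4` be even.
`L` from `uniform_dec N`. `K'` at least all the constants of the even `N' < N` (finite sum or sup).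
`lam j := L * (N + 1) ^ (N - j)` for `j ≤ N` (natural subtraction). `K := K' + N * L + L + lam 0 + L + 2`.
Let `V, x, r, v0` be given. `smallest x r lam v0`:
* first alternative: all odd `U` with `3 ≤ |U|`, `|U| + 3 ≤ N` satisfy `r + L ≤ cutW x U`: if `v0 ∉ U` directly
  (`lam j ≥ L`), otherwise for `Uᶜ` and `cutW_compl`. `star_closable`, and `L` gives `Dec x`.
* second alternative: `W`, `m = |W|`. `cutW x W = r + 2 k` with `k : ℕ`, `2 k < lam m` (`cut_parity`, `hcut`).
  `K' + k + 1 ≤ K`. `outer` (with the induction hypothesis for `N' = N + 1 - m < N`, even) gives `P`.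
  `peel` gives `y` with `dg y u = r - k`, `cutW y W = r + 2 k - 3 k = r - k`, `Dec (con y W)`.
  `inner` for `y`, `r - k`: `hin`: for `Z` odd, `v0 ∉ Z`, `3 ≤ |Z| < m`:
  `cutW y Z ≥ cutW x Z - k N ≥ r + lam |Z| - k N ≥ r + (N + 1) lam m - N lam m ≥ r + lam m ≥ r - k + L`
  (as `|Z| + 1 ≤ m`, `lam |Z| ≥ (N + 1) * lam m`, and `2 k < lam m`). `hK`: `y u v ≥ x u v - k ≥ K - k ≥ L`.
  So `Dec (con y Wᶜ)`, `glue` gives `Dec y`, so `Dec x`.
-/

namespace Pool.Agent.H44S

open Finset Pool.Agent.H44O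
open scoped Classical

/-- The statement of the induction. -/
def f6P (N K : ℕ) : Prop :=
  ∀ (V : Type) [Fintype V], Even (Fintype.card V) → Fintype.card V = N →
      ∀ (x : V → V → ℤ) (r : ℤ), IsW x → (∀ u, dg x u = r) →
      (∀ U : Finset V, Odd U.card → r ≤ cutW x U) → ∀ v0 : V,
      (∀ u v, u ≠ v → u ≠ v0 → v ≠ v0 → (K : ℤ) ≤ x u v) → Dec x

theorem f6P_mono {N K K' : ℕ} (h : f6P N K) (hK : K ≤ K') : f6P N K' := by
  intro V _ hV hN x r hx hr hcut v0 hK'
  refine h V hV hN x r hx hr hcut v0 fun u v h1 h2 h3 => ?_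
  have h4 : (K : ℤ) ≤ K' := by exact_mod_cast hK
  exact h4.trans (hK' u v h1 h2 h3)

theorem f6_step {N : ℕ} (hN4 : 4 ≤ N) {K' L : ℕ} (hK' : ∀ m < N, f6P m K') (hL1 : 1 ≤ L)
    (hL : ∀ (V : Type) [Fintype V], Even (Fintype.card V) → Fintype.card V ≤ N →
      ∀ (x : V → V → ℤ) (r : ℤ), IsW x → (∀ u, dg x u = r) →
      (∀ U : Finset V, Odd U.card → 3 ≤ U.card → U.card + 3 ≤ Fintype.card V →
        r + L ≤ cutW x U) →
      Closable (heavy x L) → Dec x) :
    f6P N (K' + N * L + L + L * (N + 1) ^ N + L + 2) := by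
  intro V _ hV hVN x r hx hr hcut v0 hK
  let lam : ℕ → ℕ := fun j => L * (N + 1) ^ (N - j)
  have hlamL : ∀ j, L ≤ lam j := fun j => Nat.le_mul_of_pos_right L (by positivity)
  have hlam0 : ∀ j, lam j ≤ L * (N + 1) ^ N := fun j =>
    Nat.mul_le_mul_left L (Nat.pow_le_pow_right (by omega) (Nat.sub_le _ _))
  have hlam1 : ∀ i j, i < j → j ≤ N → (N + 1) * lam j ≤ lam i := by
    intro i j hij hj
    have h1 : (N + 1) ^ (N - j + 1) ≤ (N + 1) ^ (N - i) := Nat.pow_le_pow_right (by omega) (by omega)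
    calc (N + 1) * lam j = L * (N + 1) ^ (N - j + 1) := by simp only [lam]; ring
      _ ≤ L * (N + 1) ^ (N - i) := Nat.mul_le_mul_left L h1
  rcases smallest x r (fun j => (lam j : ℤ)) v0 with h | ⟨W, hWo, hWv, hW3, hWc, hWlt, hWmin⟩
  · refine hL V hV (le_of_eq hVN) x r hx hr ?_
      (star_closable (by omega) hx hr hcut hK (by rw [hVN]; omega))
    have h1 : ∀ U : Finset V, Odd U.card → v0 ∉ U → 3 ≤ U.card → U.card + 3 ≤ Fintype.card V →
        r + L ≤ cutW x U := by
      intro U hU hv h3 hUc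
      have h2 := h U hU hv h3 hUc
      have h4 : (L : ℤ) ≤ lam U.card := by exact_mod_cast hlamL U.card
      linarith
    intro U hU h3 hUc
    by_cases hv : v0 ∈ U
    · have h4 : Uᶜ.card = Fintype.card V - U.card := Finset.card_compl U
      rw [← cutW_compl hx U]
      refine h1 Uᶜ ?_ (by simpa using hv) (by omega) (by omega)
      rw [h4]
      exact Nat.Even.sub_odd (by omega) hV hU
    · exact h1 U hU hv h3 hUc
  · obtain ⟨t, ht⟩ := cut_parity hx hWo (fun a _ => hr a)
    have h0 := hcut W hWo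
    obtain ⟨k, rfl⟩ := Int.eq_ofNat_of_zero_le (a := t) (by linarith)
    have hk : cutW x W = r + 2 * k := by linarith
    have hk2 : 2 * (k : ℤ) < lam W.card := by linarith
    have hk2' : 2 * k < lam W.card := by exact_mod_cast hk2
    have hk3 := hlam0 W.card
    have hcA := card_con (V := V) W
    have hev : Even (Fintype.card (Option {v : V // v ∉ W})) := by
      have h1 : Fintype.card (Option {v : V // v ∉ W}) = Fintype.card V + 1 - W.card := by omega
      rw [h1]
      exact Nat.Odd.sub_odd hV.add_one hWo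
    obtain ⟨P, hP1, hP2, hP3⟩ := outer hV hx hr hcut hK (K' := K') (k := k) (by omega) hWo hWv hWc hk
      (fun y r' hy hr' hcut' a hy' => hK' (Fintype.card (Option {v : V // v ∉ W})) (by omega) _ hev rfl
        y r' hy hr' hcut' a hy')
    obtain ⟨y, hy, hyx, hydg, hyd, hycut, hycuts, hdec⟩ := peel hWo hW3 hWv P hP2 hx
      (fun u v h1 h2 h3 => by
        have h4 := hK u v h1 h2 h3
        have h5 : (P.length : ℤ) + 1 ≤ ((K' + N * L + L + L * (N + 1) ^ N + L + 2 : ℕ) : ℤ) := by
          rw [hP1]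
          have : k + 1 ≤ K' + N * L + L + L * (N + 1) ^ N + L + 2 := by omega
          exact_mod_cast this
        exact h5.trans h4) hP3
    rw [hP1] at hycut hyx hydg hycuts
    refine hdec (glue hy hyd ?_)
    refine inner (n := N) (L := L) hL hy (r := r - k) (fun u => by rw [hydg, hr]) hWo (by omega) hWc
      hWv (by rw [hycut, hk]; ring) ?_ ?_
    · intro Z hZ hv h3 hlt
      have h1 := hycuts Z
      have h2 := hWmin Z hZ hv h3 hlt
      have h4 : ((N + 1 : ℕ) : ℤ) * lam W.card ≤ lam Z.card := by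
        exact_mod_cast hlam1 Z.card W.card hlt (by omega)
      have h5 : (L : ℤ) ≤ lam W.card := by exact_mod_cast hlamL W.card
      rw [hVN] at h1
      push_cast at h4
      have hk0 : (0 : ℤ) ≤ k := Int.natCast_nonneg _
      have hN0 : (0 : ℤ) ≤ N := Int.natCast_nonneg _
      nlinarith [mul_le_mul_of_nonneg_right hk2.le hN0]
    · intro u v h1 h2 h3
      have h4 := hK u v h1 h2 h3
      have h5 := hyx u v
      have h6 : ((L + k : ℕ) : ℤ) ≤ ((K' + N * L + L + L * (N + 1) ^ N + L + 2 : ℕ) : ℤ) := by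
        have : L + k ≤ K' + N * L + L + L * (N + 1) ^ N + L + 2 := by omega
        exact_mod_cast this
      push_cast at h6 h4
      linarith

theorem full_dec (N : ℕ) :
    ∃ K : ℕ, ∀ (V : Type) [Fintype V], Even (Fintype.card V) → Fintype.card V = N →
      ∀ (x : V → V → ℤ) (r : ℤ), IsW x → (∀ u, dg x u = r) →
      (∀ U : Finset V, Odd U.card → r ≤ cutW x U) → ∀ v0 : V,
      (∀ u v, u ≠ v → u ≠ v0 → v ≠ v0 → (K : ℤ) ≤ x u v) → Dec x := by
  change ∃ K : ℕ, f6P N K
  induction N using Nat.strong_induction_on with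
  | _ N ih =>
    rcases Nat.even_or_odd N with hN | hN
    · rcases Nat.lt_or_ge N 4 with h4 | h4
      · refine ⟨0, fun V _ hV hVN x r hx hr hcut v0 _ => ?_⟩
        have h1 : 0 < Fintype.card V := Fintype.card_pos_iff.2 ⟨v0⟩
        obtain ⟨t, ht⟩ := hV
        exact dec_two (by omega) hx
      · choose Kf hKf using ih
        obtain ⟨L, hL1, hL⟩ := uniform_dec N
        refine ⟨_, f6_step h4 (K' := ∑ m : Fin N, Kf m m.2) (fun m hm => ?_) hL1 hL⟩
        refine f6P_mono (hKf m hm) ?_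
        exact Finset.single_le_sum (f := fun m : Fin N => Kf m m.2) (fun _ _ => Nat.zero_le _)
          (Finset.mem_univ (⟨m, hm⟩ : Fin N))
    · refine ⟨0, fun V _ hV hVN x r hx hr hcut v0 _ => ?_⟩
      rw [hVN] at hV
      exact absurd hV (Nat.not_even_iff_odd.2 hN)

end Pool.Agent.H44S
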