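import Pool.Agent.Lib.H44O.F4
import Pool.Agent.Lib.H44O.F5

/-!
# Chunk G1 (S/M): completion with the inequalities of Edmonds

* `complete_even_ok`, `complete_odd_ok`: the proofs of `complete_even` and `complete_odd` in `H44O/F4` also give
  `Ok x' r` (it is `hok'` there); repeat them.
* `cut_of_ok`: for a regular weight, `cutW x U = r |U| - inW x U ≥ r` (`sum_dg`).
* `cut_ext_of_ok`: for odd `U` in `Option V`: if `none ∈ U` pass to the complement (the number of elements of
  `Option V` is even, `cutW_compl`, `isW_ext`). If `none ∉ U`, `U` is the image of `A` (see `cut_ext` in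
  `H44O/F5`), and `cutW (ext x r) U = cutW x A + ∑ a ∈ A, (r - dg x a) = r |A| - inW x A ≥ r`.
-/

namespace Pool.Agent.H44S

open Finset Pool.Agent.H44O
open scoped Classical

variable {V : Type*} [Fintype V]

theorem complete_even_ok (hV : Even (Fintype.card V)) {x : V → V → ℤ} {r : ℤ} (hx : IsW x)
    (hok : Ok x r) :
    ∃ x' : V → V → ℤ, IsW x' ∧ (∀ u v, x u v ≤ x' u v) ∧ (∀ u, dg x' u = r) ∧ Ok x' r := by
  obtain ⟨x', hx', hok', hle, hsat⟩ := saturate hx hok
  refine ⟨x', hx', hle, ?_, hok'⟩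
  rcases f4_cases hx' hok' hsat with h | ⟨W, hW, hout, hsum⟩
  · exact h
  · have hc : Wᶜ.card = Fintype.card V - W.card := Finset.card_compl W
    have hc2 : W.card ≤ Fintype.card V := Finset.card_le_univ W
    have hodd : Odd Wᶜ.card := by
      obtain ⟨k, hk⟩ := hW
      obtain ⟨l, hl⟩ := hV
      exact ⟨l - k - 1, by omega⟩
    have h1 := hok'.2 Wᶜ hodd
    have h2 := sum_dg x' Wᶜ
    have h3 : ∑ u ∈ Wᶜ, dg x' u = Wᶜ.card * r := by
      rw [Finset.sum_congr rfl fun u hu => hout u (Finset.mem_compl.1 hu), Finset.sum_const,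
        nsmul_eq_mul]
    rw [h3, cutW_compl hx'] at h2
    have h4 : ∑ u, (r - dg x' u) ≤ 0 := by
      rw [hsum]
      linarith
    have h5 : ∀ u ∈ (univ : Finset V), 0 ≤ r - dg x' u := fun u _ => sub_nonneg.2 (hok'.1 u)
    have h6 : ∑ u, (r - dg x' u) = 0 := le_antisymm h4 (Finset.sum_nonneg h5)
    intro u
    have h7 := (Finset.sum_eq_zero_iff_of_nonneg h5).1 h6 u (Finset.mem_univ u)
    linarith

theorem complete_odd_ok (hV : Odd (Fintype.card V)) {x : V → V → ℤ} {r : ℤ} (hx : IsW x)
    (hok : Ok x r) : ∃ x' : V → V → ℤ, IsW x' ∧ (∀ u v, x u v ≤ x' u v) ∧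
      ∑ u, (r - dg x' u) = r ∧ Ok x' r := by
  obtain ⟨x', hx', hok', hle, hsat⟩ := saturate hx hok
  refine ⟨x', hx', hle, le_antisymm ?_ ?_, hok'⟩
  · rcases f4_cases hx' hok' hsat with h | ⟨W, hW, hout, hsum⟩
    · have h1 : ∑ u, (r - dg x' u) = 0 := Finset.sum_eq_zero fun u _ => by rw [h u, sub_self]
      rw [h1]
      have hpos : 0 < Fintype.card V := hV.pos
      obtain ⟨u⟩ := Fintype.card_pos_iff.1 hpos
      rw [← h u]
      exact dg_nonneg hx' u
    · rw [hsum]
      linarith [cutW_nonneg hx' W]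
  · have h1 := f4_sum (x := x') (r := r) (W := univ) (fun u hu => absurd (Finset.mem_univ u) hu)
    have h2 := hok'.2 univ (by rw [Finset.card_univ]; exact hV)
    have h3 : cutW x' univ = 0 := by
      unfold cutW
      simp
    rw [h1, h3]
    linarith

theorem cut_of_ok {x : V → V → ℤ} {r : ℤ} (hr : ∀ u, dg x u = r) (hok : Ok x r) {U : Finset V}
    (hU : Odd U.card) : r ≤ cutW x U := by
  have h1 := sum_dg x U
  have h2 : ∑ u ∈ U, dg x u = U.card * r := by
    rw [Finset.sum_congr rfl fun u _ => hr u, Finset.sum_const, nsmul_eq_mul]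
  have h3 := hok.2 U hU
  rw [h2] at h1
  linarith

theorem g1_dg_ext {x : V → V → ℤ} {r : ℤ} (u : V) : dg (ext x r) (some u) = r := by
  unfold dg
  rw [Fintype.sum_option]
  show (r - dg x u) + ∑ v, x u v = r
  unfold dg
  ring

theorem g1_inW_ext {x : V → V → ℤ} {r : ℤ} (A : Finset V) :
    inW (ext x r) (A.map Function.Embedding.some) = inW x A := by
  unfold inW
  rw [sum_map]
  refine Finset.sum_congr rfl fun a _ => ?_
  rw [sum_map]
  rfl

theorem g1_aux {x : V → V → ℤ} {r : ℤ} (hok : Ok x r) {U : Finset (Option V)}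
    (hn : none ∉ U) (hU : Odd U.card) : r ≤ cutW (ext x r) U := by
  obtain ⟨A, rfl⟩ : ∃ A : Finset V, U = A.map Function.Embedding.some := by
    refine ⟨Finset.univ.filter (fun v => some v ∈ U), ?_⟩
    ext o
    cases o with
    | none => simp [hn]
    | some v => simp
  rw [card_map] at hU
  have h1 := sum_dg (ext x r) (A.map Function.Embedding.some)
  have h2 : ∑ u ∈ A.map Function.Embedding.some, dg (ext x r) u = A.card * r := by
    rw [sum_map]
    have h4 : ∀ a ∈ A, dg (ext x r) (Function.Embedding.some a) = r := fun a _ => g1_dg_ext a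
    rw [Finset.sum_congr rfl h4, Finset.sum_const, nsmul_eq_mul]
  rw [h2, g1_inW_ext] at h1
  have h3 := hok.2 A hU
  linarith

theorem g1_gen {W : Type*} [Fintype W] {y : W → W → ℤ} {r : ℤ} (hy : IsW y)
    (hW : Even (Fintype.card W)) (a : W)
    (h : ∀ U : Finset W, a ∉ U → Odd U.card → r ≤ cutW y U) {U : Finset W} (hU : Odd U.card) :
    r ≤ cutW y U := by
  by_cases hn : a ∈ U
  · rw [← cutW_compl hy U]
    apply h
    · rw [Finset.mem_compl]
      exact fun h => h hn
    · have hc2 : U.card ≤ Fintype.card W := Finset.card_le_univ U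
      rw [Finset.card_compl]
      obtain ⟨k, hk⟩ := hU
      obtain ⟨l, hl⟩ := hW
      exact ⟨l - k - 1, by omega⟩
  · exact h U hn hU

theorem cut_ext_of_ok (hV : Odd (Fintype.card V)) {x : V → V → ℤ} {r : ℤ} (hx : IsW x)
    (hok : Ok x r) {U : Finset (Option V)} (hU : Odd U.card) : r ≤ cutW (ext x r) U := by
  have hE : Even (Fintype.card (Option V)) := by
    rw [Fintype.card_option]
    exact hV.add_one
  exact g1_gen (isW_ext (r := r) hx hok.1) hE none (fun U hn hU => g1_aux hok hn hU) hU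

end Pool.Agent.H44S
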