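import Pool.Agent.Lib.H44S.F6
import Pool.Agent.Lib.H44S.G1
import Pool.Agent.Lib.H44O.H2
import Pool.Agent.Lib.H44O.H3
import Pool.Agent.Lib.H44O.H4

/-!
# Chunk G2 (M): thick complete multigraphs

`K` = the maximum of the constants of `full_dec n` and `full_dec (n + 1)`. Let `r = max Δ w`, `x = G.wgt`
(`G.mult u v` as an integer), `Ok x r` (`MGraph.ok_max`). `r ≤ χ'` is `le_chromaticIndex`. For `χ' ≤ r`:
`chromaticIndex_le_of_cov`.
* `n = 0` or `n = 1`: there are no edges (`G.not_loop`; every `Sym2` of a type with at most one element is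
  diagonal), so the empty function is a proper colouring with `0` colours.
* `n ≥ 2` even: `x'` from `complete_even_ok`; `v0` any vertex; `full_dec n` gives `Dec x'`
  (`cut_of_ok`, `x ≤ x'`); `out_of_dec`.
* `n ≥ 3` odd: `x'` from `complete_odd_ok`, `y = ext x' r` on `Option V`, `v0 = none`; `isW_ext`, `dg_ext`,
  `cut_ext_of_ok`; pairs away from `none` are `x' u v ≥ K`; `full_dec (n + 1)`; `out_of_dec_ext`.
-/

namespace Pool.Agent.H44S

open Finset Pool.Agent.H44O
open scoped Classical

theorem g2_small {V E : Type} [Fintype V] [Fintype E] (G : MGraph V E)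
    (hn : Fintype.card V ≤ 1) : G.chromaticIndex = 0 := by
  have hs : Subsingleton V := Fintype.card_le_one_iff_subsingleton.1 hn
  have hE : IsEmpty E := by
    refine ⟨fun e => ?_⟩
    have h1 := G.not_loop e
    apply h1
    induction h : G.ends e using Sym2.inductionOn with
    | hf a b => rw [Sym2.mk_isDiag_iff]; exact Subsingleton.elim a b
  have h0 : 0 ∈ {k : ℕ | ∃ c : E → Fin k, G.Proper c} :=
    ⟨fun e => (hE.false e).elim, fun e => (hE.false e).elim⟩
  unfold MGraph.chromaticIndex
  exact Nat.le_zero.1 (Nat.sInf_le h0)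

theorem thick (n : ℕ) : ∃ K : ℕ, ∀ (V E : Type) [Fintype V] [Fintype E] (G : MGraph V E),
    Fintype.card V = n → (∀ u v, u ≠ v → K ≤ G.mult u v) →
    G.chromaticIndex = max G.maxDeg G.dens := by
  obtain ⟨K1, hK1⟩ := full_dec n
  obtain ⟨K2, hK2⟩ := full_dec (n + 1)
  refine ⟨max K1 K2, fun V E _ _ G hn hK => ?_⟩
  refine le_antisymm ?_ G.le_chromaticIndex
  by_cases h1 : n ≤ 1
  · rw [g2_small G (by omega)]
    exact Nat.zero_le _
  · have hok := G.ok_max
    have hx := G.isW_wgt
    apply G.chromaticIndex_le_of_cov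
    have hKx : ∀ u v, u ≠ v → ((max K1 K2 : ℕ) : ℤ) ≤ G.wgt u v := by
      intro u v huv
      unfold MGraph.wgt
      exact_mod_cast hK u v huv
    haveI : Nonempty V := Fintype.card_pos_iff.1 (by omega)
    rcases Nat.even_or_odd n with he | ho
    · obtain ⟨x', hx', hle, hdg, hok'⟩ := complete_even_ok (by rw [hn]; exact he) hx hok
      obtain ⟨v0⟩ := ‹Nonempty V›
      haveI : Nonempty V := ⟨v0⟩
      refine out_of_dec hle hdg (hK1 V (by rw [hn]; exact he) hn x' _ hx' hdg
        (fun U hU => cut_of_ok hdg hok' hU) v0 ?_)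
      intro u v huv _ _
      have h2 : (K1 : ℤ) ≤ ((max K1 K2 : ℕ) : ℤ) := by exact_mod_cast le_max_left K1 K2
      exact (h2.trans (hKx u v huv)).trans (hle u v)
    · obtain ⟨x', hx', hle, hsum, hok'⟩ := complete_odd_ok (by rw [hn]; exact ho) hx hok
      have hc : Fintype.card (Option V) = n + 1 := by rw [Fintype.card_option, hn]
      have hE : Even (Fintype.card (Option V)) := by rw [hc]; exact ho.add_one
      refine out_of_dec_ext (y := ext x' _) (fun u v => hle u v) (dg_ext hsum)
        (hK2 (Option V) hE hc (ext x' _) _ (isW_ext hx' hok'.1) (dg_ext hsum)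
        (fun U hU => cut_ext_of_ok (by rw [hn]; exact ho) hx' hok' hU) none ?_)
      intro u v huv hu hv
      cases u with
      | none => exact absurd rfl hu
      | some u =>
        cases v with
        | none => exact absurd rfl hv
        | some v =>
          have huv' : u ≠ v := fun h => huv (by rw [h])
          have h2 : (K2 : ℤ) ≤ ((max K1 K2 : ℕ) : ℤ) := by exact_mod_cast le_max_right K1 K2
          exact (h2.trans (hKx u v huv')).trans (hle u v)

end Pool.Agent.H44S
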