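import Pool.Agent.Lib.H44O.E4
import Pool.Agent.Lib.H44O.F5
import Pool.Agent.Lib.H44O.F6
import Pool.Agent.Lib.H44O.H5
import Pool.Agent.Lib.H44O.D13

/-!
# Definitions: contraction of a vertex set, splitting off two edges
-/

namespace Pool.Agent.H44S

open Finset Pool.Agent.H44O
open scoped Classical

variable {V : Type*}

/-- Contract the set `S` to one vertex `none`. -/
noncomputable def con (x : V → V → ℤ) (S : Finset V) :
    Option {v : V // v ∉ S} → Option {v : V // v ∉ S} → ℤ
  | none, none => 0
  | none, some v => ∑ w ∈ S, x w v
  | some u, none => ∑ w ∈ S, x w u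
  | some u, some v => x u v

/-- Splitting off at `u`: the edges `up` and `uq` are replaced by `pq`. -/
noncomputable def spl (u p q : V) : V → V → ℤ := ed p q - ed u p - ed u q

/-- The sum of the splittings at `u` in a list of pairs. -/
noncomputable def spls (u : V) (P : List (V × V)) : V → V → ℤ := (P.map (fun e => spl u e.1 e.2)).sum

end Pool.Agent.H44S
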